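import Mathlib

/-! A manifold structure from a family of open injective parametrizations, and the abstract
two-piece lemma. -/

open Set Filter Topology
open scoped Manifold ContDiff

namespace Pool.Agent.Lib.MP_a9c398_gt

section atlas

variable {E : Type} [NormedAddCommGroup E] [NormedSpace ℝ E] {M : Type} [TopologicalSpace M]
  {ι : Type} {ψ : ι → E → M} {W : ι → Set E}

/-- The parametrization `ψ i` on `W i` as an open partial homeomorphism. -/
noncomputable def paramHomeo (ψ : E → M) (W : Set E) (hW : IsOpen W) (hc : ContinuousOn ψ W)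
    (hi : InjOn ψ W) (ho : ∀ V, V ⊆ W → IsOpen V → IsOpen (ψ '' V)) :
    OpenPartialHomeomorph E M :=
  OpenPartialHomeomorph.ofContinuousOpenRestrict (hi.toPartialEquiv ψ W) hc
    (by
      intro U hU
      have h1 : IsOpen (Subtype.val '' U : Set E) := hW.isOpenMap_subtype_val U hU
      have h2 := ho _ (Subtype.coe_image_subset W U) h1
      convert h2 using 1
      rw [image_image]
      rfl) hW

theorem exists_atlas (hW : ∀ i, IsOpen (W i)) (hc : ∀ i, ContinuousOn (ψ i) (W i))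
    (hi : ∀ i, InjOn (ψ i) (W i)) (ho : ∀ i V, V ⊆ W i → IsOpen V → IsOpen (ψ i '' V))
    (hcov : ∀ x : M, ∃ i, ∃ y ∈ W i, ψ i y = x)
    (hcomp : ∀ i j, ∀ x ∈ W i, ∀ y ∈ W j, ψ i x = ψ j y →
      ∃ g : E → E, ContDiffAt ℝ ∞ g x ∧ g x = y ∧ ∀ᶠ x' in 𝓝 x, ψ j (g x') = ψ i x') :
    ∃ (_ : ChartedSpace E M), IsManifold 𝓘(ℝ, E) ∞ M ∧
      ∀ {F : Type} [NormedAddCommGroup F] [NormedSpace ℝ F] (f : M → F), Continuous f →
        (∀ i, ∀ x ∈ W i, ContDiffAt ℝ ∞ (f ∘ ψ i) x) →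
        (∀ i, ∀ x ∈ W i, Function.Injective (fderiv ℝ (f ∘ ψ i) x)) →
        ContMDiff 𝓘(ℝ, E) 𝓘(ℝ, F) ∞ f ∧
          ∀ x, Function.Injective (mfderiv 𝓘(ℝ, E) 𝓘(ℝ, F) f x) := by
  classical
  let e : ι → OpenPartialHomeomorph E M := fun i =>
    paramHomeo (ψ i) (W i) (hW i) (hc i) (hi i) (ho i)
  have he : ∀ i, (e i : E → M) = ψ i := fun i => rfl
  have hs : ∀ i, (e i).source = W i := fun i => rfl
  have ht : ∀ i, (e i).target = ψ i '' W i := fun i => rfl
  choose idx pt hpt hptx using hcov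
  let C : ChartedSpace E M :=
    { atlas := range fun i => (e i).symm
      chartAt := fun x => (e (idx x)).symm
      mem_chart_source := fun x => by
        change x ∈ (e (idx x)).target
        rw [ht]
        exact ⟨pt x, hpt x, hptx x⟩
      chart_mem_atlas := fun x => ⟨idx x, rfl⟩ }
  refine ⟨C, ?_, ?_⟩
  · refine isManifold_of_contDiffOn _ _ _ ?_
    rintro _ _ ⟨i, rfl⟩ ⟨j, rfl⟩
    intro x hx
    simp only [modelWithCornersSelf_coe, modelWithCornersSelf_coe_symm, Function.comp_id,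
      Function.id_comp, preimage_id_eq, id_eq, range_id, inter_univ,
      OpenPartialHomeomorph.symm_symm] at hx ⊢
    rw [OpenPartialHomeomorph.trans_source] at hx
    obtain ⟨hx1, hx2⟩ := hx
    rw [hs] at hx1
    have hx3 : ψ i x ∈ ψ j '' W j := hx2
    obtain ⟨y, hy, hyx⟩ := hx3
    obtain ⟨g, hg, hgx, hev⟩ := hcomp i j x hx1 y hy hyx.symm
    have hgW : ∀ᶠ x' in 𝓝 x, g x' ∈ W j :=
      hg.continuousAt.eventually_mem (by rw [hgx]; exact (hW j).mem_nhds hy)
    refine (hg.congr_of_eventuallyEq ?_).contDiffWithinAt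
    filter_upwards [hev, hgW] with x' h1 h2
    rw [OpenPartialHomeomorph.trans_apply, he, ← h1]
    exact (e j).left_inv (by rw [hs]; exact h2)
  · intro F _ _ f hf hsm hinj
    have hch : ∀ x : M, chartAt E x = (e (idx x)).symm := fun x => rfl
    have hval : ∀ x : M, (e (idx x)).symm x = pt x := fun x => by
      have := (e (idx x)).left_inv (x := pt x) (by rw [hs]; exact hpt x)
      rwa [he, hptx] at this
    have hw : ∀ x : M, writtenInExtChartAt 𝓘(ℝ, E) 𝓘(ℝ, F) x f = f ∘ ψ (idx x) := fun x => by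
      ext y
      simp [writtenInExtChartAt, hch, he]
    have hp : ∀ x : M, extChartAt 𝓘(ℝ, E) x x = pt x := fun x => by
      simp [hch, hval]
    have hcm : ContMDiff 𝓘(ℝ, E) 𝓘(ℝ, F) ∞ f := by
      intro x
      rw [contMDiffAt_iff]
      refine ⟨hf.continuousAt, ?_⟩
      have h1 := hw x
      unfold writtenInExtChartAt at h1
      rw [h1, hp]
      exact (hsm _ _ (hpt x)).contDiffWithinAt
    refine ⟨hcm, fun x => ?_⟩
    rw [((hcm x).mdifferentiableAt (by simp)).mfderiv, hw, hp]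
    simp only [modelWithCornersSelf_coe, range_id, fderivWithin_univ]
    exact hinj _ _ (hpt x)

end atlas

/-- Two-piece lemma: on a compact space, if any two local maxima of `h` lie in a preconnected set
on which `h` is at least the smaller of the two values, every set `{h > c}` is preconnected. -/
theorem isPreconnected_superlevel {M : Type} [TopologicalSpace M] [CompactSpace M] {h : M → ℝ}
    (hh : Continuous h)
    (hmax : ∀ x₁ x₂, IsLocalMax h x₁ → IsLocalMax h x₂ →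
      ∃ S : Set M, IsPreconnected S ∧ x₁ ∈ S ∧ x₂ ∈ S ∧ ∀ x ∈ S, h x₁ ≤ h x) (c : ℝ) :
    IsPreconnected {x | c < h x} := by
  have key : ∀ U V : Set M, IsOpen U → IsOpen V → {x | c < h x} ⊆ U ∪ V →
      ({x | c < h x} ∩ U).Nonempty → ¬ ({x | c < h x} ∩ (U ∩ V)).Nonempty →
      ∃ x ∈ {x | c < h x} ∩ U, IsLocalMax h x := by
    intro U V hU hV hsub ⟨x₀, hx₀, hx₀U⟩ hne
    have hx₀V : x₀ ∉ V := fun hv => hne ⟨x₀, hx₀, hx₀U, hv⟩
    have hA : IsClosed ({x | h x₀ ≤ h x} ∩ Vᶜ) :=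
      (isClosed_le continuous_const hh).inter hV.isClosed_compl
    obtain ⟨x₁, ⟨hx₁, hx₁V⟩, hm⟩ := hA.isCompact.exists_isMaxOn ⟨x₀, le_refl (h x₀), hx₀V⟩
      hh.continuousOn
    have hx₁c : c < h x₁ := lt_of_lt_of_le hx₀ hx₁
    have hx₁U : x₁ ∈ U := (hsub hx₁c).resolve_right hx₁V
    refine ⟨x₁, ⟨hx₁c, hx₁U⟩, ?_⟩
    have hO : IsOpen ({x | c < h x} ∩ U) := (isOpen_lt continuous_const hh).inter hU
    filter_upwards [hO.mem_nhds ⟨hx₁c, hx₁U⟩] with x hx
    have hxV : x ∉ V := fun hv => hne ⟨x, hx.1, hx.2, hv⟩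
    by_cases hc : h x₀ ≤ h x
    · exact hm ⟨hc, hxV⟩
    · exact (le_of_lt (not_le.mp hc)).trans hx₁
  intro U V hU hV hsub hUne hVne
  by_contra hne
  obtain ⟨x₁, hx₁, hm₁⟩ := key U V hU hV hsub hUne hne
  obtain ⟨x₂, hx₂, hm₂⟩ := key V U hV hU (by rwa [union_comm]) hVne (by rwa [inter_comm V U])
  obtain ⟨S, hS, h₁, h₂, hSh⟩ := hmax x₁ x₂ hm₁ hm₂
  have hSc : S ⊆ {x | c < h x} := fun x hx => lt_of_lt_of_le hx₁.1 (hSh x hx)
  obtain ⟨x, hxS, hx⟩ := hS U V hU hV (hSc.trans hsub) ⟨x₁, h₁, hx₁.2⟩ ⟨x₂, h₂, hx₂.2⟩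
  exact hne ⟨x, hSc hxS, hx⟩

end Pool.Agent.Lib.MP_a9c398_gt
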