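import Mathlib

/-!
Definitions used in the statement: the closed surface obtained from a closed disc by removing
`2k` small open discs, identifying antipodal points of the outer boundary circle (a cross-cap) and
gluing the small boundary circles in pairs by a reflection (`k` handles).
This is the real projective plane with `k` handles, of Euler characteristic `1 - 2k`.
-/

open scoped ContDiff Manifold

namespace Pool.Agent.Lib.MP_a9c398_gt

/-- The closed disc of radius `R` about `0` in the plane, minus the open discs of radius `δ`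
about the `2k` points `c (i, b)`. -/
def HoledDisc {k : ℕ} (R δ : ℝ) (c : Fin k × Bool → ℂ) : Set ℂ :=
  {x | ‖x‖ ≤ R ∧ ∀ a, δ ≤ ‖x - c a‖}

/-- `M` is the projective plane with `k` handles: it is the quotient of a closed disc with `2k`
holes (pairwise disjoint closed discs of radius `δ` in the interior), where exactly the following
points are identified: antipodal points `x, -x` of the outer circle, and for each `i` the points
`c (i, b) + u` and `c (i, !b) + conj u` (`‖u‖ = δ`) of the `i`-th pair of inner circles. -/
def IsProjectivePlaneWithHandles (k : ℕ) (M : Type) [TopologicalSpace M] : Prop :=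
  ∃ (R δ : ℝ) (c : Fin k × Bool → ℂ), 0 < R ∧ 0 < δ ∧ (∀ a, ‖c a‖ + δ < R) ∧
    (∀ a b, a ≠ b → 2 * δ < ‖c a - c b‖) ∧
    ∃ q : HoledDisc R δ c → M, Topology.IsQuotientMap q ∧
      ∀ x y : HoledDisc R δ c, q x = q y ↔
        (x = y ∨ (‖(x : ℂ)‖ = R ∧ (y : ℂ) = -(x : ℂ)) ∨
          ∃ (i : Fin k) (b : Bool), ‖(x : ℂ) - c (i, b)‖ = δ ∧
            (y : ℂ) - c (i, !b) = (starRingEnd ℂ) ((x : ℂ) - c (i, b)))

/-- The Euclidean plane, the model space of surfaces. -/
abbrev E2 : Type := EuclideanSpace ℝ (Fin 2)

/-- Euclidean four-space. -/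
abbrev E4 : Type := EuclideanSpace ℝ (Fin 4)

/-- The atlas of `M` is a `C^∞` atlas (modelled on the whole plane, so there is no boundary). -/
def IsSmoothSurface (M : Type) [TopologicalSpace M] [ChartedSpace E2 M] : Prop :=
  IsManifold (𝓡 2) ∞ M

/-- For `M` with charts in the normed space `E`: the map `f : M → F` is `C^∞` and its differential
is injective at every point. -/
def IsSmoothImmersion (E : Type) [NormedAddCommGroup E] [NormedSpace ℝ E] {F : Type}
    [NormedAddCommGroup F] [NormedSpace ℝ F] {M : Type} [TopologicalSpace M] [ChartedSpace E M]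
    (f : M → F) : Prop :=
  ContMDiff 𝓘(ℝ, E) 𝓘(ℝ, F) ∞ f ∧ ∀ x, Function.Injective (mfderiv 𝓘(ℝ, E) 𝓘(ℝ, F) f x)

/-- The two-piece property: the preimage of every open half-space is preconnected. -/
def HasTwoPieceProperty {M : Type} [TopologicalSpace M] (f : M → E4) : Prop :=
  ∀ (ξ : E4) (c : ℝ), ξ ≠ 0 → IsPreconnected {x | c < inner ℝ ξ (f x)}

/-- The image of `f` lies in no affine hyperplane. -/
def IsSubstantial {M : Type} (f : M → E4) : Prop :=
  ∀ (ξ : E4) (c : ℝ), ξ ≠ 0 → ∃ x, inner ℝ ξ (f x) ≠ c

end Pool.Agent.Lib.MP_a9c398_gt
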