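import Pool.Agent.Lib.MP_a9c398_gt.Surface
import Pool.Agent.Lib.MP_a9c398_gt.Defs
import Pool.Agent.Lib.MP_a9c398_gt.Atlas

-- part Pool.Agent.Lib.MP_a9c398_gt.Model
section

/-! The surface is the projective plane with `k` handles. -/

open Set Filter Topology

namespace Pool.Agent.Lib.MP_a9c398_gt

variable {k : ℕ} {δ : ℝ}

/-- The last homogeneous coordinate of a point of the closed disc. -/
noncomputable def wt (k : ℕ) (x : ℂ) : ℝ := min 1 (rad k + 1 - ‖x‖)

theorem wt_one {x : ℂ} (h : ‖x‖ ≤ rad k) : wt k x = 1 := min_eq_left (by linarith)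

theorem wt_big {x : ℂ} (h : rad k ≤ ‖x‖) : wt k x = rad k + 1 - ‖x‖ := min_eq_right (by linarith)

theorem wt_nonneg {x : ℂ} (h : ‖x‖ ≤ rad k + 1) : 0 ≤ wt k x := le_min zero_le_one (by linarith)

theorem wt_le (x : ℂ) : wt k x ≤ 1 := min_le_left _ _

theorem wt_anti {x y : ℂ} (h : ‖x‖ ≤ ‖y‖) : wt k y ≤ wt k x := min_le_min_left _ (by linarith)

theorem far_wt (a : Fin k × Bool) {x : ℂ} (h : rad k ≤ ‖x‖) (h' : ‖x‖ ≤ rad k + 1) :
    2 ≤ ‖x - wt k x * cen a‖ := by
  have h1 := norm_cen a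
  have h2 := norm_sub_norm_le x (wt k x * cen a)
  rw [norm_mul, Complex.norm_real, Real.norm_of_nonneg (wt_nonneg h')] at h2
  have h3 := mul_le_mul_of_nonneg_right (wt_le (k := k) x) (norm_nonneg (cen a : ℂ))
  linarith

/-- The holed disc used for the model. -/
abbrev HD (k : ℕ) (δ : ℝ) : Set ℂ := HoledDisc (rad k + 1) δ fun a : Fin k × Bool => (cen a : ℂ)

theorem lift_mem (h0 : 0 < δ) (h1 : δ < 1) {x : ℂ} (hx : x ∈ HD k δ) :
    (x, wt k x) ∈ Om k (δ ^ 2) := by
  have hsq : δ ^ 2 < δ := by nlinarith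
  rcases le_total ‖x‖ (rad k) with h | h
  · rw [wt_one h, mem_Om_one]
    exact fun a => hsq.trans_le (hx.2 a)
  · refine ⟨fun h0 => ?_, fun a => ?_⟩
    · have : x = 0 := congrArg Prod.fst h0
      rw [this, norm_zero] at h
      linarith [rad_ge k]
    · have h2 := far_wt a h hx.1
      have h3 := wt_nonneg hx.1
      have h4 := wt_le (k := k) x
      simp only
      rw [abs_of_nonneg h3]
      nlinarith

theorem mem_HD_of_big (h1 : δ < 1) {x : ℂ} (h : rad k ≤ ‖x‖) (h' : ‖x‖ ≤ rad k + 1) :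
    x ∈ HD k δ := ⟨h', fun a => by linarith [far_of_big a h]⟩

theorem model_surj (h0 : 0 < δ) (h1 : δ < 1) (m : Surf k (δ ^ 2)) :
    ∃ x ∈ HD k δ, pr k (δ ^ 2) (x, wt k x) = m := by
  have hε : 0 < δ ^ 2 := pow_pos h0 2
  have hR := rad_ge k
  obtain ⟨p, hp, rfl⟩ := pr_surj m
  by_cases hz : p.2 = 0
  · have hu : 0 < ‖p.1‖ := norm_pos_iff.mpr fun h => hp.1 (Prod.ext h hz)
    have hn : ‖((rad k + 1) / ‖p.1‖ : ℝ) • p.1‖ = rad k + 1 := by
      rw [norm_smul, Real.norm_of_nonneg (by positivity)]; field_simp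
    refine ⟨((rad k + 1) / ‖p.1‖ : ℝ) • p.1, mem_HD_of_big h1 (by linarith) hn.le, ?_⟩
    rw [← pr_smul hε hp (r := (rad k + 1) / ‖p.1‖) (by positivity)]
    congr 1
    ext
    · rfl
    · rw [wt_big (by linarith), hn]; simp [hz]
  · set y : ℂ := p.1 / p.2 with hy
    have hyO : (y, (1 : ℝ)) ∈ Om k (δ ^ 2) := mem_Om_one.mpr ((mem_Om_iff hz).mp hp)
    have hpy : pr k (δ ^ 2) p = pr k (δ ^ 2) (y, 1) := by
      conv_lhs => rw [eq_smul_one hz]
      exact pr_smul hε hyO hz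
    rw [hpy]
    rcases le_total ‖y‖ (rad k) with h | h
    · by_cases hh : ∀ a : Fin k × Bool, δ ≤ ‖y - cen a‖
      · exact ⟨y, ⟨by linarith, hh⟩, by rw [wt_one h]⟩
      · push Not at hh
        obtain ⟨a, ha⟩ := hh
        have h2 := mem_Om_one.mp hyO a
        have h3 : 0 < ‖y - cen a‖ := hε.trans h2
        have hne : y - cen a ≠ 0 := norm_pos_iff.mp h3
        set y' : ℂ := cen (par2 a) + ((δ ^ 2 : ℝ) : ℂ) / (y - cen a) with hy'
        have hn : ‖y' - cen (par2 a)‖ = δ ^ 2 / ‖y - cen a‖ := by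
          rw [hy', add_sub_cancel_left, norm_div, Complex.norm_real, Real.norm_of_nonneg hε.le]
        have hn1 : ‖y' - cen (par2 a)‖ < 1 := by rw [hn, div_lt_one h3]; exact h2
        have hn2 : δ ≤ ‖y' - cen (par2 a)‖ := by rw [hn, le_div_iff₀ h3]; nlinarith
        have hb : ‖y'‖ ≤ rad k := by
          have h4 := norm_cen (par2 a)
          have h5 := norm_add_le (y' - cen (par2 a)) (cen (par2 a))
          rw [sub_add_cancel] at h5
          linarith
        have hmem : y' ∈ HD k δ := by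
          refine ⟨by linarith, fun b => ?_⟩
          by_cases hab : par2 a = b
          · rw [← hab]; exact hn2
          · linarith [far_of_near hab hn1.le]
        refine ⟨y', hmem, ?_⟩
        have h6 := lift_mem h0 h1 hmem
        rw [wt_one hb] at h6 ⊢
        refine ((pr_eq_iff hε hyO h6).mpr (Or.inr ⟨a, ?_⟩)).symm
        rw [glue_iff (by simp) (by simp)]
        simp only [Complex.ofReal_one, div_one]
        rw [hy', add_sub_cancel_left]
        field_simp
    · have hpos : 0 < 1 + ‖y‖ := by positivity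
      have hn : ‖((rad k + 1) / (1 + ‖y‖) : ℝ) • y‖ = rad k + 1 - (rad k + 1) / (1 + ‖y‖) := by
        rw [norm_smul, Real.norm_of_nonneg (by positivity)]; field_simp; ring
      have hr1 : (rad k + 1) / (1 + ‖y‖) ≤ 1 := by rw [div_le_one hpos]; linarith
      have hr0 : 0 < (rad k + 1) / (1 + ‖y‖) := by positivity
      refine ⟨((rad k + 1) / (1 + ‖y‖) : ℝ) • y, mem_HD_of_big h1 (by linarith) (by linarith), ?_⟩
      rw [← pr_smul hε hyO hr0.ne']
      congr 1
      ext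
      · rfl
      · rw [wt_big (by linarith), hn]; simp

theorem model_rel (h0 : 0 < δ) (h1 : δ < 1) {x y : ℂ} (hx : x ∈ HD k δ) (hy : y ∈ HD k δ) :
    Rel k (δ ^ 2) (x, wt k x) (y, wt k y) ↔
      (x = y ∨ (‖x‖ = rad k + 1 ∧ y = -x) ∨ ∃ (i : Fin k) (b : Bool), ‖x - cen (i, b)‖ = δ ∧
        y - cen (i, !b) = (starRingEnd ℂ) (x - cen (i, b))) := by
  have hε : 0 < δ ^ 2 := pow_pos h0 2
  have hR := rad_ge k
  have hxO := lift_mem h0 h1 hx
  have hyO := lift_mem h0 h1 hy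
  have hsmall : ∀ {x y : ℂ} {a : Fin k × Bool}, x ∈ HD k δ → y ∈ HD k δ →
      Glue (δ ^ 2) a (x, wt k x) (y, wt k y) → ‖x‖ ≤ rad k := by
    intro x y a hx hy hg
    by_contra hcon
    push Not at hcon
    have e1 := far_wt a hcon.le hx.1
    have e2 := (lift_mem h0 h1 hy).2 (par2 a)
    have e3 := congrArg norm hg
    simp only [norm_mul, Complex.norm_real, Real.norm_eq_abs] at e2 e3
    rw [abs_of_nonneg hε.le, abs_of_nonneg (wt_nonneg hx.1)] at e3
    have e4 := wt_le (k := k) x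
    have e5 : 0 ≤ δ ^ 2 * |wt k y| := by positivity
    nlinarith
  constructor
  · rintro (⟨r, hr⟩ | ⟨a, ha⟩)
    · have e1 : y = r • x := congrArg Prod.fst hr
      have e2 : wt k y = r * wt k x := congrArg Prod.snd hr
      have e3 : ‖y‖ = |r| * ‖x‖ := by rw [e1, norm_smul, Real.norm_eq_abs]
      rcases (wt_nonneg hx.1).eq_or_lt with hw | hw
      · have hw' : wt k y = 0 := by rw [e2, ← hw, mul_zero]
        have key : ∀ {x : ℂ}, wt k x = 0 → ‖x‖ = rad k + 1 := by
          intro x h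
          rcases le_total ‖x‖ (rad k) with h' | h'
          · rw [wt_one h'] at h; norm_num at h
          · rw [wt_big h'] at h; linarith
        have n1 := key hw.symm
        have n2 := key hw'
        rw [n1, n2] at e3
        have e4 : |r| = 1 := by
          have : (|r| - 1) * (rad k + 1) = 0 := by linarith
          have := (mul_eq_zero.mp this).resolve_right (by linarith)
          linarith
        rcases abs_eq (zero_le_one) |>.mp e4 with h | h
        · left; rw [e1, h, one_smul]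
        · right; left; exact ⟨n1, by rw [e1, h, neg_one_smul]⟩
      · have hr0 : 0 ≤ r := by
          by_contra hcon
          push Not at hcon
          nlinarith [wt_nonneg hy.1, mul_pos (neg_pos.mpr hcon) hw]
        rw [abs_of_nonneg hr0] at e3
        have hr1 : r = 1 := by
          rcases lt_trichotomy r 1 with h | h | h
          · have : ‖y‖ ≤ ‖x‖ := by nlinarith [norm_nonneg x]
            have := wt_anti (k := k) this
            nlinarith
          · exact h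
          · have : ‖x‖ ≤ ‖y‖ := by nlinarith [norm_nonneg x]
            have := wt_anti (k := k) this
            nlinarith
        left; rw [e1, hr1, one_smul]
    · have b1 := hsmall hx hy ha
      have b2 := hsmall hy hx ha.symm
      rw [wt_one b1, wt_one b2, glue_iff (by simp) (by simp)] at ha
      simp only [Complex.ofReal_one, div_one] at ha
      have n1 := hx.2 a
      have n2 := hy.2 (par2 a)
      have n3 : ‖x - cen a‖ * ‖y - cen (par2 a)‖ = δ ^ 2 := by
        rw [← norm_mul, ha, Complex.norm_real, Real.norm_of_nonneg hε.le]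
      have n4 : ‖x - cen a‖ = δ := by
        simp only at n1 n2
        nlinarith
      refine Or.inr (Or.inr ⟨a.1, a.2, n4, ?_⟩)
      have hne : x - cen a ≠ 0 := norm_pos_iff.mp (by rw [n4]; exact h0)
      apply mul_left_cancel₀ hne
      rw [Complex.mul_conj, Complex.normSq_eq_norm_sq, n4]
      exact ha
  · rintro (rfl | ⟨h2, h3⟩ | ⟨i, b, h2, h3⟩)
    · exact Or.inl ⟨1, by simp⟩
    · have h4 : wt k x = 0 := by rw [wt_big (by linarith), h2, sub_self]
      have h5 : wt k y = 0 := by rw [wt_big (by rw [h3, norm_neg]; linarith), h3, norm_neg, h2, sub_self]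
      exact Or.inl ⟨-1, by rw [h4, h5, h3]; simp⟩
    · have key : ∀ {x : ℂ} {a : Fin k × Bool}, ‖x - cen a‖ = δ → ‖x‖ ≤ rad k := by
        intro x a h
        have h4 := norm_cen a
        have h5 := norm_add_le (x - cen a) (cen a)
        rw [sub_add_cancel] at h5
        linarith
      have h4 : ‖y - cen (i, !b)‖ = δ := by rw [h3, Complex.norm_conj, h2]
      refine Or.inr ⟨(i, b), ?_⟩
      rw [wt_one (key h2), wt_one (key h4), glue_iff (by simp) (by simp)]
      simp only [Complex.ofReal_one, div_one, par2]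
      rw [h3, Complex.mul_conj, Complex.normSq_eq_norm_sq, h2]

theorem model (h0 : 0 < δ) (h1 : δ < 1) :
    CompactSpace (Surf k (δ ^ 2)) ∧ IsProjectivePlaneWithHandles k (Surf k (δ ^ 2)) := by
  have hε : 0 < δ ^ 2 := pow_pos h0 2
  have hR := rad_ge k
  have := t2Space_surf (k := k) hε
  let q : HD k δ → Surf k (δ ^ 2) := fun x => pr k (δ ^ 2) (x, wt k x)
  have hq : Continuous q := by
    refine continuousOn_pr.comp_continuous ?_ fun x => lift_mem h0 h1 x.2
    unfold wt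
    fun_prop
  have hs : Function.Surjective q := fun m => by
    obtain ⟨x, hx, h⟩ := model_surj h0 h1 m
    exact ⟨⟨x, hx⟩, h⟩
  have hc : IsCompact (HD k δ) := by
    have : HD k δ = Metric.closedBall 0 (rad k + 1) ∩
        ⋂ a : Fin k × Bool, {x : ℂ | δ ≤ ‖x - cen a‖} := by
      ext x; simp [HoledDisc]
    rw [this]
    exact (isCompact_closedBall _ _).inter_right
      (isClosed_iInter fun a => isClosed_le continuous_const (by fun_prop))
  have : CompactSpace (HD k δ) := isCompact_iff_compactSpace.mp hc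
  refine ⟨hs.compactSpace hq, rad k + 1, δ, fun a => cen a, by linarith, h0,
    fun a => by linarith [norm_cen a], fun a b hab => by linarith [cen_sep_norm hab], q,
    hq.isClosedMap.isQuotientMap hq hs, fun x y => ?_⟩
  rw [pr_eq_iff hε (lift_mem h0 h1 x.2) (lift_mem h0 h1 y.2), model_rel h0 h1 x.2 y.2,
    Subtype.ext_iff]

end Pool.Agent.Lib.MP_a9c398_gt
end

-- part Pool.Agent.Lib.MP_a9c398_gt.Main
section

/-! The immersion, its two-piece property, and the atlas. -/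

open Set Filter Topology
open scoped ContDiff Manifold

namespace Pool.Agent.Lib.MP_a9c398_gt

variable {k : ℕ} {t κ δ ε : ℝ}

/-- The part of the cone where the Veronese map is not modified. -/
def Out (k : ℕ) : Set (ℂ × ℝ) := {p | rad k * |p.2| < ‖p.1‖}

theorem isOpen_Out (k : ℕ) : IsOpen (Out k) := isOpen_lt (by fun_prop) (by fun_prop)

theorem norm_div_big {p : ℂ × ℝ} (hz : p.2 ≠ 0) : p ∈ Out k ↔ rad k < ‖p.1 / p.2‖ := by
  rw [norm_div, Complex.norm_real, Real.norm_eq_abs, lt_div_iff₀ (abs_pos.mpr hz)]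
  rfl

theorem mem_Out_of_zero {p : ℂ × ℝ} (hp : p ≠ 0) (hz : p.2 = 0) : p ∈ Out k := by
  have hu : 0 < ‖p.1‖ := norm_pos_iff.mpr fun h => hp (Prod.ext h hz)
  simpa [Out, hz] using hu

theorem Out_subset (hε : ε < 1) : Out k ⊆ Om k ε := by
  intro p hp
  have h0 : p ≠ 0 := by
    rintro rfl
    simp [Out] at hp
  by_cases hz : p.2 = 0
  · refine ⟨h0, fun a => ?_⟩
    simpa [Out, hz] using hp
  · rw [mem_Om_iff hz]
    intro a
    linarith [far_of_big a ((norm_div_big hz).mp hp).le]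

theorem not_glue_Out (hε : 0 < ε) (hε1 : ε < 1) {p p' : ℂ × ℝ} (hp : p ∈ Out k)
    (hp' : p' ∈ Om k ε) (a : Fin k × Bool) : ¬ Glue ε a p p' := by
  intro h
  have h1 := h.lt_one hε (Out_subset hε1 hp) hp'
  have hz := h.ne hε (Out_subset hε1 hp) hp'
  linarith [far_of_big a ((norm_div_big hz).mp hp).le]

open Classical in
/-- The map on the cone. -/
noncomputable def tot (k : ℕ) (t κ ε : ℝ) (p : ℂ × ℝ) : ℂ × ℂ :=
  if p.2 = 0 then ver t p else aff k t κ ε (p.1 / p.2)

theorem tot_one (y : ℂ) : tot k t κ ε (y, 1) = aff k t κ ε y := by simp [tot]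

theorem tot_Out {p : ℂ × ℝ} (hp : p ∈ Out k) : tot k t κ ε p = ver t p := by
  unfold tot
  split_ifs with hz
  · rfl
  · rw [aff_out _ _ _ ((norm_div_big hz).mp hp).le]
    conv_rhs => rw [eq_smul_one hz, ver_smul t hz]

theorem tot_rel (hκ : κ * Real.log ε = -1) (hε : 0 < ε) {p p' : ℂ × ℝ} (hp : p ∈ Om k ε)
    (hp' : p' ∈ Om k ε) (h : Rel k ε p p') : tot k t κ ε p = tot k t κ ε p' := by
  rcases h with ⟨r, h⟩ | ⟨a, h⟩
  · have hr := (smul_symm hp'.1 h).1
    subst h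
    unfold tot
    by_cases hz : p.2 = 0
    · rw [if_pos hz, if_pos (by simp [hz]), ver_smul t hr]
    · rw [if_neg hz, if_neg (by simp [hz, hr]), div_smul hr]
  · have hz := h.ne hε hp hp'
    have hz' := h.symm.ne hε hp' hp
    unfold tot
    rw [if_neg hz, if_neg hz', aff_neck _ _ _ (h.lt_one hε hp hp').le,
      aff_neck _ _ _ (h.symm.lt_one hε hp' hp).le, par2_par2]
    exact (neck_symm hκ hε ((glue_iff hz hz').mp h)).symm

theorem contDiffAt_tot (ht : 0 < t) (hε : 0 < ε) {p : ℂ × ℝ} (hp : p ∈ Om k ε) :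
    ContDiffAt ℝ ∞ (tot k t κ ε) p := by
  by_cases hz : p.2 = 0
  · have h1 : ContDiffAt ℝ ∞ (fun p => ver t p) p :=
      contDiffAt_ver contDiffAt_const contDiffAt_id (den_pos ht hp.1).ne'
    refine h1.congr_of_eventuallyEq ?_
    filter_upwards [(isOpen_Out k).mem_nhds (mem_Out_of_zero hp.1 hz)] with w hw using tot_Out hw
  · have h1 : ContDiffAt ℝ ∞ (fun p : ℂ × ℝ => aff k t κ ε (p.1 / p.2)) p :=
      contDiffAt_aff contDiffAt_const contDiffAt_const contDiffAt_const (contDiffAt_div hz) ht.le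
        fun a => norm_pos_iff.mp (hε.trans ((mem_Om_iff hz).mp hp a))
    refine h1.congr_of_eventuallyEq ?_
    filter_upwards [continuous_snd.continuousAt.eventually_ne hz] with w hw using if_neg hw

theorem Good.ε_pos (G : Good k t κ δ) : 0 < δ ^ 2 := pow_pos G.δ_pos 2

theorem Good.ε_lt (G : Good k t κ δ) : δ ^ 2 < 1 := by nlinarith [G.δ_pos, G.δ_lt]

/-- The map on the surface. -/
noncomputable def Good.map (G : Good k t κ δ) : Surf k (δ ^ 2) → ℂ × ℂ :=
  Quot.lift (fun p : Om k (δ ^ 2) => tot k t κ (δ ^ 2) p)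
    fun p p' h => tot_rel G.log G.ε_pos p.2 p'.2 h

theorem Good.map_pr (G : Good k t κ δ) {p : ℂ × ℝ} (hp : p ∈ Om k (δ ^ 2)) :
    G.map (pr k (δ ^ 2) p) = tot k t κ (δ ^ 2) p := by
  rw [pr_of_mem hp]; rfl

theorem Good.continuous_map (G : Good k t κ δ) : Continuous G.map := by
  refine continuous_quot_lift _ ?_
  exact continuous_iff_continuousAt.mpr fun p =>
    (contDiffAt_tot G.t_pos G.ε_pos p.2).continuousAt.comp continuous_subtype_val.continuousAt

theorem Good.localMax (G : Good k t κ δ) {a b : ℂ} (hab : a ≠ 0 ∨ b ≠ 0) {p : ℂ × ℝ}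
    (hp : p ∈ Om k (δ ^ 2)) (hm : IsLocalMax (fun x => lf a b (G.map x)) (pr k (δ ^ 2) p)) :
    p ∈ Out k ∧ IsLocalMax (fun p' => lf a b (ver t p')) p := by
  have h1 : IsLocalMax (fun p' => lf a b (tot k t κ (δ ^ 2) p')) p := by
    refine (hm.comp_continuous (continuousAt_pr hp)).congr ?_
    filter_upwards [(isOpen_Om k _).mem_nhds hp] with w hw
    simp only [Function.comp, G.map_pr hw]
  have h2 : p ∈ Out k := by
    by_contra hcon
    have hz : p.2 ≠ 0 := fun hz => hcon (mem_Out_of_zero hp.1 hz)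
    rw [norm_div_big hz, not_lt] at hcon
    refine G.aff_noMax _ hcon ((mem_Om_iff hz).mp hp) a b hab ?_
    rw [eq_smul_one hz] at h1
    refine (IsLocalMax.comp_continuous (g := fun y : ℂ => p.2 • (y, (1 : ℝ))) h1
      (by fun_prop)).congr (Eventually.of_forall fun y => ?_)
    simp only [Function.comp, tot]
    rw [if_neg (by simp [hz]), div_smul hz]
    simp
  refine ⟨h2, h1.congr ?_⟩
  filter_upwards [(isOpen_Out k).mem_nhds h2] with w hw
  rw [tot_Out hw]

theorem continuous_lf (a b : ℂ) : Continuous (lf a b) := by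
  unfold lf
  fun_prop

theorem Good.tpp (G : Good k t κ δ) {a b : ℂ} (hab : a ≠ 0 ∨ b ≠ 0) (c : ℝ) :
    IsPreconnected {x | c < lf a b (G.map x)} := by
  have := (model (k := k) G.δ_pos G.δ_lt).1
  refine isPreconnected_superlevel ((continuous_lf a b).comp G.continuous_map) ?_ c
  intro x₁ x₂ hm₁ hm₂
  obtain ⟨p₁, hp₁, rfl⟩ := pr_surj x₁
  obtain ⟨p₂, hp₂, rfl⟩ := pr_surj x₂
  obtain ⟨o₁, m₁⟩ := G.localMax hab hp₁ hm₁
  obtain ⟨o₂, m₂⟩ := G.localMax hab hp₂ hm₂
  by_cases h0 : (0 : ℂ × ℝ) ∈ segment ℝ p₁ p₂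
  · obtain ⟨α, β, hα, hβ, hs, h⟩ := h0
    have hβ0 : β ≠ 0 := by
      rintro rfl
      have : α = 1 := by linarith
      exact hp₁.1 (by simpa [this] using h)
    have he : p₂ = (-(β⁻¹ * α)) • p₁ := by
      have h1 : β • p₂ = -(α • p₁) := eq_neg_of_add_eq_zero_right h
      rw [neg_smul, mul_smul, ← smul_neg, ← h1, smul_smul, inv_mul_cancel₀ hβ0, one_smul]
    have := (pr_eq_iff G.ε_pos hp₁ hp₂).mpr (Or.inl ⟨_, he⟩)
    exact ⟨{pr k (δ ^ 2) p₁}, isPreconnected_singleton, rfl, this.symm, by simp⟩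
  · have key : ∀ v ∈ segment ℝ p₁ p₂, v ∈ Out k ∧ lf a b (ver t p₁) ≤ lf a b (ver t v) := by
      intro v hv
      have hv0 : v ≠ 0 := fun h => h0 (h ▸ hv)
      obtain ⟨α, β, -, -, -, rfl⟩ := hv
      have hr := fun w hw => rayleigh G.t_pos hp₁.1 hp₂.1 m₁ m₂ α β hv0 (w := w) hw
      refine ⟨?_, hr p₁ hp₁.1⟩
      set v := α • p₁ + β • p₂
      by_contra hcon
      have hz : v.2 ≠ 0 := fun hz => hcon (mem_Out_of_zero hv0 hz)
      rw [norm_div_big hz, not_lt] at hcon
      refine G.ver_noMax _ hcon a b hab (Eventually.of_forall fun y => ?_)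
      have h1 := hr (y, 1) (by simp)
      rwa [eq_smul_one hz, ver_smul t hz] at h1
    have hsub : segment ℝ p₁ p₂ ⊆ Om k (δ ^ 2) := fun v hv => Out_subset G.ε_lt (key v hv).1
    refine ⟨pr k (δ ^ 2) '' segment ℝ p₁ p₂,
      (convex_segment p₁ p₂).isPreconnected.image _ (continuousOn_pr.mono hsub),
      mem_image_of_mem _ (left_mem_segment ℝ p₁ p₂), mem_image_of_mem _ (right_mem_segment ℝ p₁ p₂),
      ?_⟩
    rintro _ ⟨v, hv, rfl⟩
    simp only [Function.comp]
    rw [G.map_pr hp₁, G.map_pr (hsub hv), tot_Out o₁, tot_Out (key v hv).1]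
    exact (key v hv).2

theorem Good.substantial (G : Good k t κ δ) {a b : ℂ} (hab : a ≠ 0 ∨ b ≠ 0) (c : ℝ) :
    ∃ x, lf a b (G.map x) ≠ c := by
  by_contra hcon
  push Not at hcon
  have hn : ‖(rad k : ℂ)‖ = rad k := by
    rw [Complex.norm_real, Real.norm_of_nonneg (by linarith [rad_ge k])]
  have hp : ((rad k : ℂ), (1 : ℝ)) ∈ Om k (δ ^ 2) :=
    mem_Om_one.mpr fun a => by linarith [far_of_big a hn.ge, G.ε_lt]
  have h := (G.localMax hab hp (Eventually.of_forall fun x => by simp [hcon])).1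
  rw [norm_div_big (by simp)] at h
  simp only [Complex.ofReal_one, div_one, hn, lt_self_iff_false] at h

section charts

variable {T : (ℂ × ℝ) →L[ℝ] (ℂ × ℝ)}

theorem chart_open (hε : 0 < ε) (hT : ∀ p, T (T p) = p) {V : Set ℂ}
    (hV : ∀ y ∈ V, T (y, 1) ∈ Om k ε) (ho : IsOpen V) :
    IsOpen ((fun y => pr k ε (T (y, 1))) '' V) := by
  let C : Set (ℂ × ℝ) := {p | (T p).2 ≠ 0 ∧ (T p).1 / (T p).2 ∈ V}
  have hC : ∀ p ∈ C, p = (T p).2 • T ((T p).1 / (T p).2, 1) := by
    intro p hp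
    rw [← map_smul, ← eq_smul_one hp.1, hT]
  have hCo : IsOpen C := by
    rw [isOpen_iff_mem_nhds]
    intro p hp
    have h1 : ContinuousAt (fun p => (T p).1 / ((T p).2 : ℂ)) p :=
      (contDiffAt_div (n := 0) hp.1).continuousAt.comp T.continuous.continuousAt
    have h2 : ContinuousAt (fun p => (T p).2) p := by fun_prop
    filter_upwards [h1.eventually_mem (ho.mem_nhds hp.2), h2.eventually_ne hp.1] with w e1 e2
    exact ⟨e2, e1⟩
  have hsub : C ⊆ Om k ε := fun p hp => by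
    rw [hC p hp]; exact smul_mem_Om hp.1 (hV _ hp.2)
  convert isOpen_image_pr hε hsub hCo using 1
  ext x
  constructor
  · rintro ⟨y, hy, rfl⟩
    exact ⟨T (y, 1), by simpa [C, hT] using hy, rfl⟩
  · rintro ⟨p, hp, rfl⟩
    refine ⟨_, hp.2, ?_⟩
    conv_rhs => rw [hC p hp]
    exact (pr_smul hε (hV _ hp.2) hp.1).symm

theorem chart_normal (hT : ∀ p, T (T p) = p) {w : ℂ × ℝ} (h : (T w).2 ≠ 0) :
    T ((T w).1 / (T w).2, 1) = (T w).2⁻¹ • w := by
  have h1 : w = (T w).2 • T ((T w).1 / (T w).2, 1) := by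
    rw [← map_smul, ← eq_smul_one h, hT]
  exact (smul_symm (r := (T w).2) (fun h0 => h (by simp [h0])) h1).2

theorem chart_comp (hε : 0 < ε) {T' : (ℂ × ℝ) →L[ℝ] (ℂ × ℝ)} (hT' : ∀ p, T' (T' p) = p)
    {x y : ℂ} (hx : T (x, 1) ∈ Om k ε) (hy : T' (y, 1) ∈ Om k ε)
    (h : pr k ε (T (x, 1)) = pr k ε (T' (y, 1))) :
    ∃ g : ℂ → ℂ, ContDiffAt ℝ ∞ g x ∧ g x = y ∧
      ∀ᶠ x' in 𝓝 x, pr k ε (T' (g x', 1)) = pr k ε (T (x', 1)) := by
  obtain ⟨g, h1, h2, h3⟩ := rel_local hε hy hx ((pr_eq_iff hε hy hx).mp h.symm)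
  have hi : ContDiff ℝ ∞ (fun x : ℂ => T (x, 1)) := T.contDiff.comp (by fun_prop)
  have h4 : ContDiffAt ℝ ∞ (fun x : ℂ => T' (g (T (x, 1)))) x :=
    T'.contDiff.contDiffAt.comp x (h1.comp x hi.contDiffAt)
  have h5 : T' (g (T (x, 1))) = (y, 1) := by rw [h2, hT']
  have h6 : (T' (g (T (x, 1)))).2 ≠ 0 := by simp [h5]
  refine ⟨fun x => (T' (g (T (x, 1)))).1 / (T' (g (T (x, 1)))).2,
    ContDiffAt.comp (g := fun p : ℂ × ℝ => p.1 / (p.2 : ℂ)) x (contDiffAt_div h6) h4,
    by simp [h5], ?_⟩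
  filter_upwards [hi.continuous.continuousAt.eventually h3,
    h4.snd.continuousAt.eventually_ne h6] with x' e1 e2
  rw [← e1.2]
  rw [chart_normal hT' e2]
  exact pr_smul hε e1.1 (inv_ne_zero e2)

theorem chart_scale (hT : ∀ p, T (T p) = p) {x y : ℂ} {r : ℝ} (h : T (y, 1) = r • T (x, 1)) :
    x = y := by
  have h1 := congrArg T h
  rw [map_smul, hT, hT] at h1
  have h2 : r = 1 := by simpa using (congrArg Prod.snd h1).symm
  simpa [h2] using (congrArg Prod.fst h1).symm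

theorem chart_imm_Out (ht : 0 < t) (hT : ∀ p, T (T p) = p) {y : ℂ} (hy : T (y, 1) ∈ Out k) :
    Imm (fun y => tot k t κ ε (T (y, 1))) y := by
  have hi : Continuous (fun x : ℂ => T (x, 1)) := by fun_prop
  have h0 : T (y, 1) ≠ 0 := (Out_subset (ε := 0) one_pos hy).1
  refine Imm.congr (g := fun y => ver t (T (y, 1))) (fun e he => ?_) ?_
  · have h1 : (fun τ : ℝ => ver t (T (y + τ • e, 1))) =
        fun τ : ℝ => ver t (T (y, 1) + τ • T (e, 0)) := by
      ext1 τ
      rw [← map_smul, ← map_add]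
      simp
    rw [h1] at he
    obtain ⟨μ, hμ⟩ := ver_kernel ht h0 he
    have h2 := congrArg T hμ
    rw [map_smul, hT, hT] at h2
    have h3 : μ = 0 := by simpa using (congrArg Prod.snd h2).symm
    simpa [h3] using congrArg Prod.fst h2
  · filter_upwards [hi.continuousAt.eventually_mem ((isOpen_Out k).mem_nhds hy)] with w hw
    exact (tot_Out hw).symm

end charts

/-- Exchange of the last coordinate with the real part. -/
noncomputable def swRe : (ℂ × ℝ) →L[ℝ] (ℂ × ℝ) :=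
  (Complex.equivRealProdCLM.symm.toContinuousLinearMap.comp
    ((ContinuousLinearMap.snd ℝ ℂ ℝ).prod (Complex.imCLM.comp (ContinuousLinearMap.fst ℝ ℂ ℝ)))).prod
    (Complex.reCLM.comp (ContinuousLinearMap.fst ℝ ℂ ℝ))

/-- Exchange of the last coordinate with the imaginary part. -/
noncomputable def swIm : (ℂ × ℝ) →L[ℝ] (ℂ × ℝ) :=
  (Complex.equivRealProdCLM.symm.toContinuousLinearMap.comp
    ((Complex.reCLM.comp (ContinuousLinearMap.fst ℝ ℂ ℝ)).prod (ContinuousLinearMap.snd ℝ ℂ ℝ))).prod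
    (Complex.imCLM.comp (ContinuousLinearMap.fst ℝ ℂ ℝ))

theorem swRe_apply (p : ℂ × ℝ) : swRe p = (⟨p.2, p.1.im⟩, p.1.re) := rfl

theorem swIm_apply (p : ℂ × ℝ) : swIm p = (⟨p.1.re, p.2⟩, p.1.im) := rfl

/-- The linear involutions giving the affine charts. -/
noncomputable def sw : Bool ⊕ ℂ → (ℂ × ℝ) →L[ℝ] (ℂ × ℝ)
  | Sum.inl false => swRe
  | Sum.inl true => swIm
  | Sum.inr _ => ContinuousLinearMap.id ℝ _

theorem sw_sw (i : Bool ⊕ ℂ) (p : ℂ × ℝ) : sw i (sw i p) = p := by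
  rcases i with (_ | _) | _ <;> rfl

/-- The domains of the charts. -/
def dom (k : ℕ) (ε : ℝ) : Bool ⊕ ℂ → Set ℂ
  | Sum.inl b => {y | sw (Sum.inl b) (y, 1) ∈ Out k}
  | Sum.inr y₀ => Metric.ball y₀ 1 ∩ {y | (y, (1 : ℝ)) ∈ Om k ε}

theorem dom_mem (hε : ε < 1) {i : Bool ⊕ ℂ} {y : ℂ} (hy : y ∈ dom k ε i) :
    sw i (y, 1) ∈ Om k ε := by
  rcases i with b | y₀
  · exact Out_subset hε hy
  · exact hy.2

theorem isOpen_dom (i : Bool ⊕ ℂ) : IsOpen (dom k ε i) := by
  rcases i with b | y₀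
  · exact (isOpen_Out k).preimage (f := fun y : ℂ => sw (Sum.inl b) (y, 1)) (by fun_prop)
  · exact Metric.isOpen_ball.inter
      ((isOpen_Om k ε).preimage (f := fun y : ℂ => (y, (1 : ℝ))) (by fun_prop))

theorem dom_inj (hε : 0 < ε) (hε1 : ε < 1) (i : Bool ⊕ ℂ) :
    InjOn (fun y => pr k ε (sw i (y, 1))) (dom k ε i) := by
  intro x hx y hy h
  rcases (pr_eq_iff hε (dom_mem hε1 hx) (dom_mem hε1 hy)).mp h with ⟨r, hr⟩ | ⟨a, ha⟩
  · exact chart_scale (sw_sw i) hr
  · exfalso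
    rcases i with b | y₀
    · exact not_glue_Out hε hε1 hx (dom_mem hε1 hy) a ha
    · have h1 := ha.lt_one hε hx.2 hy.2
      have h2 := ha.symm.lt_one hε hy.2 hx.2
      simp only [Complex.ofReal_one, div_one] at h1 h2
      have h3 := far_of_near (par2_ne a).symm h1.le
      have h4 : ‖x - y‖ < 2 := by
        have e1 := mem_ball_iff_norm.mp hx.1
        have e2 := mem_ball_iff_norm.mp hy.1
        have e3 := norm_sub_le (x - y₀) (y - y₀)
        rw [sub_sub_sub_cancel_right] at e3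
        linarith
      have h5 := norm_add_le (x - y) (y - cen (par2 a))
      rw [sub_add_sub_cancel] at h5
      linarith

theorem dom_cover (hε : 0 < ε) (x : Surf k ε) : ∃ i, ∃ y ∈ dom k ε i, pr k ε (sw i (y, 1)) = x := by
  obtain ⟨p, hp, rfl⟩ := pr_surj x
  have key : ∀ i, (sw i p).2 ≠ 0 → sw i ((sw i p).1 / (sw i p).2, 1) = (sw i p).2⁻¹ • p :=
    fun i hi => chart_normal (sw_sw i) hi
  by_cases hz : p.2 = 0
  · have h1 : ∃ b, (sw (Sum.inl b) p).2 ≠ 0 := by
      by_contra hcon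
      push Not at hcon
      exact hp.1 (Prod.ext (Complex.ext (hcon false) (hcon true)) hz)
    obtain ⟨b, hb⟩ := h1
    refine ⟨Sum.inl b, _, ?_, by rw [key _ hb, pr_smul hε hp (inv_ne_zero hb)]⟩
    change sw (Sum.inl b) _ ∈ Out k
    rw [key _ hb]
    exact mem_Out_of_zero (smul_ne_zero (inv_ne_zero hb) hp.1) (by simp [hz])
  · have h1 := key (Sum.inr (p.1 / p.2)) hz
    refine ⟨Sum.inr (p.1 / p.2), p.1 / p.2,
      ⟨Metric.mem_ball_self one_pos, mem_Om_one.mpr ((mem_Om_iff hz).mp hp)⟩, ?_⟩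
    exact (congrArg (pr k ε) h1).trans (pr_smul hε hp (inv_ne_zero hz))

theorem Good.chart_imm (G : Good k t κ δ) {i : Bool ⊕ ℂ} {y : ℂ} (hy : y ∈ dom k (δ ^ 2) i) :
    Imm (fun y => tot k t κ (δ ^ 2) (sw i (y, 1))) y := by
  by_cases h : sw i (y, 1) ∈ Out k
  · exact chart_imm_Out G.t_pos (sw_sw i) h
  · rcases i with b | y₀
    · exact absurd hy h
    · change (y, (1 : ℝ)) ∉ Out k at h
      rw [norm_div_big (by simp), not_lt] at h
      simp only [Complex.ofReal_one, div_one] at h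
      exact (G.aff_imm y h (mem_Om_one.mp hy.2)).congr
        (Eventually.of_forall fun y => (tot_one y).symm)

theorem exists_lf (l : (ℂ × ℂ) →L[ℝ] ℝ) : ∃ a b : ℂ, ∀ v, l v = lf a b v := by
  refine ⟨⟨l (1, 0), -l (Complex.I, 0)⟩, ⟨l (0, 1), -l (0, Complex.I)⟩, fun v => ?_⟩
  have hv : v = v.1.re • ((1 : ℂ), (0 : ℂ)) + v.1.im • (Complex.I, (0 : ℂ)) +
      v.2.re • ((0 : ℂ), (1 : ℂ)) + v.2.im • ((0 : ℂ), Complex.I) := by
    ext <;> simp
  conv_lhs => rw [hv]
  simp only [map_add, map_smul, smul_eq_mul, lf, Complex.add_re, Complex.mul_re]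
  ring

theorem main (k : ℕ) : ∃ (M : Type) (_ : TopologicalSpace M) (_ : T2Space M) (_ : CompactSpace M)
    (_ : ConnectedSpace M) (_ : ChartedSpace (EuclideanSpace ℝ (Fin 2)) M)
    (_ : IsManifold (𝓡 2) ∞ M), IsProjectivePlaneWithHandles k M ∧
      ∃ f : M → EuclideanSpace ℝ (Fin 4), ContMDiff (𝓡 2) (𝓡 4) ∞ f ∧
        (∀ x, Function.Injective (mfderiv (𝓡 2) (𝓡 4) f x)) ∧
        (∀ (ξ : EuclideanSpace ℝ (Fin 4)) (c : ℝ), ξ ≠ 0 →
          IsPreconnected {x | c < inner ℝ ξ (f x)}) ∧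
        (∀ (ξ : EuclideanSpace ℝ (Fin 4)) (c : ℝ), ξ ≠ 0 → ∃ x, inner ℝ ξ (f x) ≠ c) := by
  obtain ⟨t, κ, δ, G⟩ := exists_good k
  have hε := G.ε_pos
  have hε1 := G.ε_lt
  obtain ⟨hcomp, hmodel⟩ := model (k := k) G.δ_pos G.δ_lt
  let L2 : EuclideanSpace ℝ (Fin 2) ≃L[ℝ] ℂ := ContinuousLinearEquiv.ofFinrankEq (by simp)
  let L4 : (ℂ × ℂ) ≃L[ℝ] EuclideanSpace ℝ (Fin 4) := ContinuousLinearEquiv.ofFinrankEq (by simp)
  have hconn : ConnectedSpace (Surf k (δ ^ 2)) := by
    have hne : Nonempty (Surf k (δ ^ 2)) := ⟨pr k _ 0⟩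
    have hc : Continuous fun x => lf 1 0 (G.map x) := (continuous_lf 1 0).comp G.continuous_map
    obtain ⟨x₀, -, hx₀⟩ := isCompact_univ.exists_isMinOn univ_nonempty hc.continuousOn
    have h1 := G.tpp (a := 1) (b := 0) (Or.inl one_ne_zero) (lf 1 0 (G.map x₀) - 1)
    have h2 : {x | lf 1 0 (G.map x₀) - 1 < lf 1 0 (G.map x)} = univ :=
      eq_univ_of_forall fun x => by
        have : lf 1 0 (G.map x₀) ≤ lf 1 0 (G.map x) := hx₀ (mem_univ x)
        simp only [mem_ofPred_eq]; linarith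
    rw [h2] at h1
    exact { isPreconnected_univ := h1, toNonempty := hne }
  have hcont : ∀ i, ∀ y ∈ dom k (δ ^ 2) i,
      ContinuousAt (fun y => pr k (δ ^ 2) (sw i (y, 1))) y := fun i y hy =>
    (continuousAt_pr (dom_mem hε1 hy)).comp (f := fun y : ℂ => sw i (y, 1)) (by fun_prop)
  obtain ⟨C, hM, hf⟩ := exists_atlas (E := EuclideanSpace ℝ (Fin 2)) (M := Surf k (δ ^ 2))
    (ψ := fun i x => pr k (δ ^ 2) (sw i (L2 x, 1))) (W := fun i => L2 ⁻¹' dom k (δ ^ 2) i)
    (fun i => (isOpen_dom i).preimage L2.continuous)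
    (fun i x hx => ((hcont i _ hx).comp L2.continuous.continuousAt).continuousWithinAt)
    (fun i x hx y hy h => L2.injective (dom_inj hε hε1 i hx hy h))
    (fun i V hV ho => by
      have := chart_open (k := k) hε (sw_sw i) (V := L2 '' V)
        (by rintro _ ⟨x, hx, rfl⟩; exact dom_mem hε1 (hV hx)) (L2.isOpenMap V ho)
      rwa [image_image] at this)
    (fun x => by
      obtain ⟨i, y, hy, h⟩ := dom_cover hε x
      exact ⟨i, L2.symm y, by simpa using hy, by simpa using h⟩)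
    (fun i j x hx y hy h => by
      obtain ⟨g, h1, h2, h3⟩ := chart_comp hε (sw_sw j) (dom_mem hε1 hx) (dom_mem hε1 hy) h
      refine ⟨fun x => L2.symm (g (L2 x)),
        L2.symm.contDiff.contDiffAt.comp x (h1.comp x L2.contDiff.contDiffAt), by simp [h2], ?_⟩
      filter_upwards [L2.continuous.continuousAt.eventually h3] with x' hx'
      simpa using hx')
  have hloc : ∀ i, ∀ x ∈ L2 ⁻¹' dom k (δ ^ 2) i,
      ((fun m => L4 (G.map m)) ∘ fun x => pr k (δ ^ 2) (sw i (L2 x, 1))) =ᶠ[𝓝 x]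
        L4 ∘ (fun y => tot k t κ (δ ^ 2) (sw i (y, 1))) ∘ L2 := by
    intro i x hx
    filter_upwards [((isOpen_dom i).preimage L2.continuous).mem_nhds hx] with x' hx'
    simp only [Function.comp, G.map_pr (dom_mem hε1 hx')]
  have hsm : ∀ i, ∀ y ∈ dom k (δ ^ 2) i,
      ContDiffAt ℝ ∞ (fun y => tot k t κ (δ ^ 2) (sw i (y, 1))) y := fun i y hy =>
    ContDiffAt.comp (g := tot k t κ (δ ^ 2)) (f := fun y : ℂ => sw i (y, 1)) y
      (contDiffAt_tot G.t_pos hε (dom_mem hε1 hy))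
      ((sw i).contDiff.comp (by fun_prop : ContDiff ℝ ∞ fun y : ℂ => (y, (1 : ℝ)))).contDiffAt
  obtain ⟨h1, h2⟩ := hf (fun m => L4 (G.map m)) (L4.continuous.comp G.continuous_map)
    (fun i x hx => (L4.contDiff.contDiffAt.comp x
      ((hsm i _ hx).comp x L2.contDiff.contDiffAt)).congr_of_eventuallyEq (hloc i x hx))
    (fun i x hx => by
      have hd := (hsm i _ hx).differentiableAt (by simp)
      have h3 := L4.hasFDerivAt.comp x (hd.hasFDerivAt.comp x L2.hasFDerivAt)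
      rw [(hloc i x hx).fderiv_eq, h3.fderiv]
      exact L4.injective.comp (((G.chart_imm hx).injective hd).comp L2.injective))
  have hlf : ∀ ξ : EuclideanSpace ℝ (Fin 4), ξ ≠ 0 → ∃ a b : ℂ, (a ≠ 0 ∨ b ≠ 0) ∧
      ∀ v, inner ℝ ξ (L4 v) = lf a b v := by
    intro ξ hξ
    obtain ⟨a, b, h⟩ := exists_lf ((innerSL ℝ ξ).comp L4.toContinuousLinearMap)
    refine ⟨a, b, ?_, h⟩
    by_contra hcon
    push Not at hcon
    have h3 := h (L4.symm ξ)
    simp [hcon.1, hcon.2, lf] at h3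
    exact hξ h3
  refine ⟨Surf k (δ ^ 2), inferInstance, t2Space_surf hε, hcomp, hconn, C, hM, hmodel,
    fun m => L4 (G.map m), h1, h2, fun ξ c hξ => ?_, fun ξ c hξ => ?_⟩
  · obtain ⟨a, b, hab, h⟩ := hlf ξ hξ
    simp only [h]
    exact G.tpp hab c
  · obtain ⟨a, b, hab, h⟩ := hlf ξ hξ
    simp only [h]
    exact G.substantial hab c

end Pool.Agent.Lib.MP_a9c398_gt
end
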