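import Mathlib

-- part Pool.Agent.Lib.MP_a9c398_gt.Local
section

/-! Local analysis: small `C²` perturbations of the parabola `y ↦ (y, y²)` are immersions on which
no height function has a local maximum. -/

open Set Filter Topology
open scoped ContDiff

namespace Pool.Agent.Lib.MP_a9c398_gt

/-- The complex parabola. -/
def par (y : ℂ) : ℂ × ℂ := (y, y ^ 2)

/-- A real linear functional on `ℂ × ℂ`. -/
def lf (a b : ℂ) (v : ℂ × ℂ) : ℝ := (a * v.1 + b * v.2).re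

/-- No nonzero height function of `g` has a local maximum at `y`. -/
def NoMax (g : ℂ → ℂ × ℂ) (y : ℂ) : Prop :=
  ∀ a b : ℂ, (a ≠ 0 ∨ b ≠ 0) → ¬ IsLocalMax (fun y' => lf a b (g y')) y

/-- No directional derivative of `g` at `y` vanishes. -/
def Imm (g : ℂ → ℂ × ℂ) (y : ℂ) : Prop :=
  ∀ e : ℂ, HasDerivAt (fun τ : ℝ => g (y + τ • e)) 0 0 → e = 0

theorem NoMax.congr {g g' : ℂ → ℂ × ℂ} {y : ℂ} (h : NoMax g y) (he : g =ᶠ[𝓝 y] g') :
    NoMax g' y := by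
  intro a b hab hm
  refine h a b hab (hm.congr ?_)
  filter_upwards [he] with y' hy'
  simp [hy']

theorem tendsto_line (y e : ℂ) : Tendsto (fun τ : ℝ => y + τ • e) (𝓝 0) (𝓝 y) := by
  have : Continuous (fun τ : ℝ => y + τ • e) := by fun_prop
  simpa using this.tendsto 0

theorem Imm.congr {g g' : ℂ → ℂ × ℂ} {y : ℂ} (h : Imm g y) (he : g =ᶠ[𝓝 y] g') :
    Imm g' y := by
  intro e hd
  refine h e (hd.congr_of_eventuallyEq ?_)
  exact (tendsto_line y e).eventually he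

theorem Imm.injective {g : ℂ → ℂ × ℂ} {y : ℂ} (h : Imm g y) (hd : DifferentiableAt ℝ g y) :
    Function.Injective (fderiv ℝ g y) := by
  rw [injective_iff_map_eq_zero]
  intro e he
  refine h e ?_
  have h1 : HasDerivAt (fun τ : ℝ => y + τ • e) e 0 := by
    simpa using ((hasDerivAt_id (0 : ℝ)).smul_const e).const_add y
  have h2 : HasFDerivAt g (fderiv ℝ g y) (y + (0 : ℝ) • e) := by simpa using hd.hasFDerivAt
  have h3 := h2.comp_hasDerivAt (0 : ℝ) h1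
  rw [he] at h3
  exact h3

theorem contDiffAt_deriv_param {A G : Type} [NormedAddCommGroup A] [NormedSpace ℝ A]
    [NormedAddCommGroup G] [NormedSpace ℝ G] {Ψ : A → ℝ → G} {a₀ : A} {τ₀ : ℝ} {n : ℕ}
    (h : ContDiffAt ℝ (n + 1 : ℕ) (Function.uncurry Ψ) (a₀, τ₀)) :
    ContDiffAt ℝ n (Function.uncurry fun a τ => deriv (Ψ a) τ) (a₀, τ₀) := by
  have h1 : ContDiffAt ℝ (n + 1 : ℕ)
      (Function.uncurry fun (p : A × ℝ) (τ : ℝ) => Ψ p.1 τ) ((a₀, τ₀), τ₀) := by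
    have h2 : ContDiffAt ℝ (n + 1 : ℕ) (fun q : (A × ℝ) × ℝ => (q.1.1, q.2)) ((a₀, τ₀), τ₀) := by
      fun_prop
    exact ContDiffAt.comp (g := Function.uncurry Ψ) ((a₀, τ₀), τ₀) h h2
  have h3 := ContDiffAt.fderiv (m := n) (g := fun p : A × ℝ => p.2) (x₀ := (a₀, τ₀)) h1
    (by fun_prop) (by simp)
  exact h3.clm_apply (contDiffAt_const (c := (1 : ℝ)))

theorem cont_deriv_param {A G : Type} [NormedAddCommGroup A] [NormedSpace ℝ A]
    [NormedAddCommGroup G] [NormedSpace ℝ G] {Ψ : A → ℝ → G} {a₀ : A}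
    (hΨ : ContDiffAt ℝ (2 : ℕ) (Function.uncurry Ψ) (a₀, 0)) :
    ContinuousAt (fun z => deriv (Ψ z) 0) a₀ ∧ ContinuousAt (fun z => deriv (deriv (Ψ z)) 0) a₀ ∧
      ∀ᶠ z in 𝓝 a₀, ContinuousAt (Ψ z) 0 := by
  have hD1 := contDiffAt_deriv_param (n := 1) hΨ
  have hD2 := contDiffAt_deriv_param (n := 0) hD1
  have hemb : Tendsto (fun z : A => (z, (0 : ℝ))) (𝓝 a₀) (𝓝 (a₀, 0)) :=
    (by fun_prop : Continuous fun z : A => (z, (0 : ℝ))).tendsto _
  refine ⟨hD1.continuousAt.tendsto.comp hemb, hD2.continuousAt.tendsto.comp hemb, ?_⟩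
  filter_upwards [hemb.eventually (hΨ.eventually (by simp))] with z hz
  exact hz.continuousAt.comp (f := fun τ : ℝ => (z, τ)) (by fun_prop)

theorem not_isLocalMax_of_deriv {φ : ℝ → ℝ} (hc : ContinuousAt φ 0)
    (h : deriv φ 0 ≠ 0 ∨ 0 < deriv (deriv φ) 0) : ¬ IsLocalMax φ 0 := by
  intro hm
  have h0 := hm.deriv_eq_zero
  have h2 := h.resolve_left (fun h => h h0)
  have hmin := isLocalMin_of_deriv_deriv_pos h2 h0 hc
  have hev : φ =ᶠ[𝓝 0] fun _ => φ 0 := by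
    filter_upwards [hm, hmin] with τ h1 h2 using le_antisymm h1 h2
  have := hev.deriv.deriv.eq_of_nhds
  simp at this
  exact h2.ne' this

theorem lf_par_line (a b y e : ℂ) : (fun τ : ℝ => lf a b (par (y + τ • e))) =
    fun τ : ℝ => (a * y + b * y ^ 2).re + ((a + 2 * b * y) * e).re * τ + (b * e ^ 2).re * τ ^ 2 := by
  ext τ
  have : a * (y + τ • e) + b * (y + τ • e) ^ 2 =
      (a * y + b * y ^ 2) + ((a + 2 * b * y) * e) * (τ : ℂ) + (b * e ^ 2) * ((τ ^ 2 : ℝ) : ℂ) := by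
    simp only [Complex.real_smul]; push_cast; ring
  simp only [lf, par, this, Complex.add_re, Complex.re_mul_ofReal]

theorem deriv_quad (A B C : ℝ) :
    deriv (fun τ : ℝ => A + B * τ + C * τ ^ 2) = fun τ => B + 2 * C * τ := by
  ext τ
  have := (((hasDerivAt_id τ).const_mul B).const_add A).add ((hasDerivAt_pow 2 τ).const_mul C)
  refine (this.congr_deriv ?_).deriv
  simp; ring

theorem deriv_lin (B C : ℝ) : deriv (fun τ : ℝ => B + C * τ) 0 = C := by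
  have := ((hasDerivAt_id (0 : ℝ)).const_mul C).const_add B
  exact (this.congr_deriv (by simp)).deriv

theorem perturb_noMax {S : Type} [NormedAddCommGroup S] [NormedSpace ℝ S] {Φ : S → ℂ → ℂ × ℂ}
    {K : Set ℂ} (hK : IsCompact K) (h0 : Φ 0 = par)
    (hsm : ∀ y ∈ K, ContDiffAt ℝ (2 : ℕ) (Function.uncurry Φ) (0, y)) :
    ∀ᶠ s in 𝓝 (0 : S), ∀ y ∈ K, NoMax (Φ s) y := by
  let P : S → ℂ × (ℂ × ℂ) → Prop := fun s w =>
    ¬ IsLocalMax (fun y' => lf w.2.1 w.2.2 (Φ s y')) w.1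
  have hKc : IsCompact (K ×ˢ Metric.sphere (0 : ℂ × ℂ) 1) := hK.prod (isCompact_sphere _ _)
  have key : ∀ᶠ s in 𝓝 (0 : S), ∀ w ∈ K ×ˢ Metric.sphere (0 : ℂ × ℂ) 1, P s w := by
    refine hKc.eventually_forall_of_forall_eventually ?_
    rintro ⟨y, a, b⟩ ⟨hy, hab⟩
    have hab' : a ≠ 0 ∨ b ≠ 0 := by
      by_contra hcon
      push Not at hcon
      simp [hcon.1, hcon.2] at hab
    have hdir : ∃ e : ℂ, ((a + 2 * b * y) * e).re ≠ 0 ∨ 0 < (b * e ^ 2).re := by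
      by_cases hb : b = 0
      · have ha := hab'.resolve_right (fun h => h hb)
        refine ⟨a⁻¹, Or.inl ?_⟩
        simp [hb, ha]
      · obtain ⟨e, he⟩ := IsAlgClosed.exists_pow_nat_eq (b⁻¹) (n := 2) (by norm_num)
        refine ⟨e, Or.inr ?_⟩
        simp [he, hb]
    obtain ⟨e, he⟩ := hdir
    let Ψ : S × (ℂ × (ℂ × ℂ)) → ℝ → ℝ := fun z τ =>
      lf z.2.2.1 z.2.2.2 (Φ z.1 (z.2.1 + τ • e))
    have hΦ : ContDiffAt ℝ (2 : ℕ)
        (fun q : (S × (ℂ × (ℂ × ℂ))) × ℝ => Φ q.1.1 (q.1.2.1 + q.2 • e)) ((0, y, a, b), 0) := by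
      have h2 : ContDiffAt ℝ (2 : ℕ)
          (fun q : (S × (ℂ × (ℂ × ℂ))) × ℝ => (q.1.1, q.1.2.1 + q.2 • e)) ((0, y, a, b), 0) := by
        fun_prop
      exact ContDiffAt.comp (g := Function.uncurry Φ) ((0, y, a, b), (0 : ℝ))
        (by simpa using hsm y hy) h2
    have hΨ : ContDiffAt ℝ (2 : ℕ) (Function.uncurry Ψ) ((0, y, a, b), 0) := by
      have h3 : ContDiffAt ℝ (2 : ℕ) (fun q : (S × (ℂ × (ℂ × ℂ))) × ℝ =>
          q.1.2.2.1 * (Φ q.1.1 (q.1.2.1 + q.2 • e)).1 +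
            q.1.2.2.2 * (Φ q.1.1 (q.1.2.1 + q.2 • e)).2) ((0, y, a, b), 0) :=
        ((by fun_prop : ContDiffAt ℝ (2 : ℕ) (fun q : (S × (ℂ × (ℂ × ℂ))) × ℝ => q.1.2.2.1) _).mul
          hΦ.fst).add
        ((by fun_prop : ContDiffAt ℝ (2 : ℕ) (fun q : (S × (ℂ × (ℂ × ℂ))) × ℝ => q.1.2.2.2) _).mul
          hΦ.snd)
      exact Complex.reCLM.contDiff.contDiffAt.comp _ h3
    obtain ⟨hc1, hc2, hc0⟩ := cont_deriv_param hΨ
    have hΨ0 : Ψ (0, y, a, b) = fun τ : ℝ => (a * y + b * y ^ 2).re +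
        ((a + 2 * b * y) * e).re * τ + (b * e ^ 2).re * τ ^ 2 := by
      rw [← lf_par_line, ← h0]
    have hev : ∀ᶠ z in 𝓝 ((0 : S), y, a, b), deriv (Ψ z) 0 ≠ 0 ∨ 0 < deriv (deriv (Ψ z)) 0 := by
      rcases he with he | he
      · have : deriv (Ψ (0, y, a, b)) 0 ≠ 0 := by
          rw [hΨ0, deriv_quad]; simpa using he
        exact (hc1.eventually_ne this).mono fun z hz => Or.inl hz
      · have : 0 < deriv (deriv (Ψ (0, y, a, b))) 0 := by
          rw [hΨ0, deriv_quad, deriv_lin]; linarith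
        exact (hc2.eventually (lt_mem_nhds this)).mono fun z hz => Or.inr hz
    filter_upwards [hc0, hev] with z h1 h2 hm
    refine not_isLocalMax_of_deriv h1 h2 ?_
    have hm' : IsLocalMax (fun y' => lf z.2.2.1 z.2.2.2 (Φ z.1 y')) (z.2.1 + (0 : ℝ) • e) := by
      simpa using hm
    exact IsLocalMax.comp_continuous (g := fun τ : ℝ => z.2.1 + τ • e) hm' (by fun_prop)
  filter_upwards [key] with s hs y hy a b hab hm
  have hr : 0 < ‖(a, b)‖ := by
    rw [norm_pos_iff]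
    intro h
    rcases hab with h1 | h1
    · exact h1 (congrArg Prod.fst h)
    · exact h1 (congrArg Prod.snd h)
  refine hs (y, (‖(a, b)‖⁻¹ : ℝ) • (a, b)) ⟨hy, ?_⟩ ?_
  · simp only [mem_sphere_iff_norm, sub_zero, norm_smul, norm_inv, norm_norm]
    exact inv_mul_cancel₀ hr.ne'
  · have hl : ∀ v : ℂ × ℂ, lf ((‖(a, b)‖⁻¹ : ℝ) • (a, b)).1 ((‖(a, b)‖⁻¹ : ℝ) • (a, b)).2 v =
        ‖(a, b)‖⁻¹ * lf a b v := by
      intro v
      simp only [lf, Prod.smul_fst, Prod.smul_snd, Complex.real_smul]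
      rw [← Complex.re_ofReal_mul]
      congr 1; ring
    simp only [hl]
    filter_upwards [hm] with y' hy'
    exact mul_le_mul_of_nonneg_left hy' (inv_nonneg.mpr hr.le)

theorem perturb_imm {S : Type} [NormedAddCommGroup S] [NormedSpace ℝ S] {Φ : S → ℂ → ℂ × ℂ}
    {K : Set ℂ} (hK : IsCompact K) (h0 : Φ 0 = par)
    (hsm : ∀ y ∈ K, ContDiffAt ℝ (2 : ℕ) (Function.uncurry Φ) (0, y)) :
    ∀ᶠ s in 𝓝 (0 : S), ∀ y ∈ K, Imm (Φ s) y := by
  let P : S → ℂ × ℂ → Prop := fun s w => deriv (fun τ : ℝ => (Φ s (w.1 + τ • w.2)).1) 0 ≠ 0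
  have hKc : IsCompact (K ×ˢ Metric.sphere (0 : ℂ) 1) := hK.prod (isCompact_sphere _ _)
  have key : ∀ᶠ s in 𝓝 (0 : S), ∀ w ∈ K ×ˢ Metric.sphere (0 : ℂ) 1, P s w := by
    refine hKc.eventually_forall_of_forall_eventually ?_
    rintro ⟨y, e⟩ ⟨hy, he⟩
    have he' : e ≠ 0 := by
      rintro rfl
      simp at he
    let Ψ : S × (ℂ × ℂ) → ℝ → ℂ := fun z τ => (Φ z.1 (z.2.1 + τ • z.2.2)).1
    have hΨ : ContDiffAt ℝ (2 : ℕ) (Function.uncurry Ψ) ((0, y, e), 0) := by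
      have h2 : ContDiffAt ℝ (2 : ℕ)
          (fun q : (S × (ℂ × ℂ)) × ℝ => (q.1.1, q.1.2.1 + q.2 • q.1.2.2)) ((0, y, e), 0) := by
        fun_prop
      exact (ContDiffAt.comp (g := Function.uncurry Φ) ((0, y, e), (0 : ℝ))
        (by simpa using hsm y hy) h2).fst
    obtain ⟨hc1, -, -⟩ := cont_deriv_param hΨ
    have hval : deriv (Ψ (0, y, e)) 0 = e := by
      have h1 : HasDerivAt (fun τ : ℝ => y + τ • e) e 0 := by
        simpa using ((hasDerivAt_id (0 : ℝ)).smul_const e).const_add y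
      have h2 : Ψ (0, y, e) = fun τ : ℝ => y + τ • e := by
        ext τ
        simp [Ψ, h0, par]
      rw [h2, h1.deriv]
    exact hc1.eventually_ne (by rw [hval]; exact he')
  filter_upwards [key] with s hs y hy e hd
  by_contra he
  have hr : 0 < ‖e‖ := norm_pos_iff.mpr he
  refine hs (y, (‖e‖⁻¹ : ℝ) • e) ⟨hy, ?_⟩ ?_
  · simp only [mem_sphere_iff_norm, sub_zero, norm_smul, norm_inv, norm_norm]
    exact inv_mul_cancel₀ hr.ne'
  · have h1 : HasDerivAt (fun τ : ℝ => τ * ‖e‖⁻¹) ‖e‖⁻¹ 0 := by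
      simpa using (hasDerivAt_id (0 : ℝ)).mul_const ‖e‖⁻¹
    have h2 : HasDerivAt (fun τ : ℝ => Φ s (y + τ • e)) 0 (0 * ‖e‖⁻¹) := by simpa using hd
    have h3 := (ContinuousLinearMap.fst ℝ ℂ ℂ).hasFDerivAt.comp_hasDerivAt (0 : ℝ)
      (HasDerivAt.scomp (h := fun τ : ℝ => τ * ‖e‖⁻¹) (0 : ℝ) h2 h1)
    have h4 : HasDerivAt (fun τ : ℝ => (Φ s (y + τ • ((‖e‖⁻¹ : ℝ) • e))).1) 0 0 := by
      refine (h3.congr_deriv (by simp)).congr_of_eventuallyEq (Eventually.of_forall fun τ => ?_)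
      simp only [Function.comp, smul_smul, ContinuousLinearMap.coe_fst']
    exact h4.deriv

end Pool.Agent.Lib.MP_a9c398_gt
end

-- part Pool.Agent.Lib.MP_a9c398_gt.Neck
section

/-! The harmonic neck joining two points of the parabola. -/

open Set Filter Topology
open scoped ContDiff

namespace Pool.Agent.Lib.MP_a9c398_gt

/-- The neck from the point `c` to the point `c'` of the parabola, in the coordinate `ζ = y - c`.
All four real coordinates are harmonic functions of `ζ`. -/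
noncomputable def neck (κ ε c c' : ℝ) (ζ : ℂ) : ℂ × ℂ :=
  (c + ζ + ε / ζ - ((κ * (c' - c) * Real.log ‖ζ‖ : ℝ) : ℂ),
    (c + ζ) ^ 2 + 2 * c' * (ε / ζ) + (ε / ζ) ^ 2 - ((κ * (c' ^ 2 - c ^ 2) * Real.log ‖ζ‖ : ℝ) : ℂ))

theorem neck_zero (c c' : ℝ) (y : ℂ) : neck 0 0 c c' (y - c) = par y := by
  simp [neck, par]

theorem neck_symm {κ ε c c' : ℝ} (hκ : κ * Real.log ε = -1) (hε : 0 < ε) {ζ ζ' : ℂ}
    (h : ζ * ζ' = ε) : neck κ ε c' c ζ' = neck κ ε c c' ζ := by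
  have hne : ζ * ζ' ≠ 0 := by rw [h]; exact_mod_cast hε.ne'
  have h1 : ζ ≠ 0 := left_ne_zero_of_mul hne
  have h2 : ζ' ≠ 0 := right_ne_zero_of_mul hne
  have e1 : (ε : ℂ) / ζ = ζ' := by rw [← h]; field_simp
  have e2 : (ε : ℂ) / ζ' = ζ := by rw [← h]; field_simp
  have hlog : Real.log ‖ζ'‖ = Real.log ε - Real.log ‖ζ‖ := by
    have : ‖ζ‖ * ‖ζ'‖ = ε := by
      rw [← norm_mul, h, Complex.norm_real, Real.norm_of_nonneg hε.le]
    rw [← this, Real.log_mul (norm_ne_zero_iff.mpr h1) (norm_ne_zero_iff.mpr h2)]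
    ring
  have r1 : κ * (c - c') * Real.log ‖ζ'‖ = (c' - c) + κ * (c' - c) * Real.log ‖ζ‖ := by
    rw [hlog]; linear_combination (c - c') * hκ
  have r2 : κ * (c ^ 2 - c' ^ 2) * Real.log ‖ζ'‖ =
      (c' ^ 2 - c ^ 2) + κ * (c' ^ 2 - c ^ 2) * Real.log ‖ζ‖ := by
    rw [hlog]; linear_combination (c ^ 2 - c' ^ 2) * hκ
  simp only [neck, e1, e2, r1, r2]
  ext
  · simp only; push_cast; ring
  · simp only; push_cast; ring

theorem contDiffAt_neck {A : Type} [NormedAddCommGroup A] [NormedSpace ℝ A] {n : WithTop ℕ∞}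
    {κ ε : A → ℝ} {ζ : A → ℂ} (c c' : ℝ) {x : A} (hκ : ContDiffAt ℝ n κ x)
    (hε : ContDiffAt ℝ n ε x) (hζ : ContDiffAt ℝ n ζ x) (h0 : ζ x ≠ 0) :
    ContDiffAt ℝ n (fun x => neck (κ x) (ε x) c c' (ζ x)) x := by
  have hl : ContDiffAt ℝ n (fun x => Real.log ‖ζ x‖) x :=
    (hζ.norm ℝ h0).log (norm_ne_zero_iff.mpr h0)
  have hre : ∀ {g : A → ℝ}, ContDiffAt ℝ n g x → ContDiffAt ℝ n (fun x => (g x : ℂ)) x :=
    fun hg => Complex.ofRealCLM.contDiff.contDiffAt.comp x hg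
  have hq : ContDiffAt ℝ n (fun x => (ε x : ℂ) / ζ x) x := by
    simp only [div_eq_mul_inv]
    exact (hre hε).mul (hζ.inv h0)
  unfold neck
  refine ContDiffAt.prodMk ?_ ?_
  · exact ((contDiffAt_const.add hζ).add hq).sub (hre ((hκ.mul contDiffAt_const).mul hl))
  · exact ((((contDiffAt_const.add hζ).pow 2).add (contDiffAt_const.mul hq)).add (hq.pow 2)).sub
      (hre ((hκ.mul contDiffAt_const).mul hl))

theorem neck_noMax (κ ε c c' : ℝ) {y : ℂ} (hy : y - c ≠ 0) :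
    NoMax (fun y => neck κ ε c c' (y - c)) y := by
  intro a b hab hm
  set β : ℝ := -(κ * ((c' - c) * a.re + (c' ^ 2 - c ^ 2) * b.re)) with hβ
  set ζ₀ : ℂ := y - c with hζ₀
  let G : ℂ → ℂ := fun ζ => a * (c + ζ + ε / ζ) +
    b * ((c + ζ) ^ 2 + 2 * c' * (ε / ζ) + (ε / ζ) ^ 2) + β * Complex.log (ζ / ζ₀)
  have hm' : IsLocalMax (fun ζ => lf a b (neck κ ε c c' ζ)) ζ₀ := by
    have h1 : IsLocalMax (fun y' => lf a b (neck κ ε c c' (y' - c))) (ζ₀ + c) := by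
      simpa [hζ₀] using hm
    have h2 := IsLocalMax.comp_continuous (g := fun ζ : ℂ => ζ + c) h1 (by fun_prop)
    refine h2.congr (Eventually.of_forall fun ζ => ?_)
    simp
  have hne : ∀ᶠ ζ in 𝓝 ζ₀, ζ ≠ 0 := isOpen_ne.mem_nhds hy
  have hslit : ∀ᶠ ζ in 𝓝 ζ₀, ζ / ζ₀ ∈ Complex.slitPlane := by
    have hc : ContinuousAt (fun ζ : ℂ => ζ / ζ₀) ζ₀ := by fun_prop
    refine hc.eventually_mem ?_
    rw [div_self hy]
    exact Complex.isOpen_slitPlane.mem_nhds Complex.one_mem_slitPlane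
  have hre : ∀ ζ : ℂ, ζ ≠ 0 → (G ζ).re = lf a b (neck κ ε c c' ζ) - β * Real.log ‖ζ₀‖ := by
    intro ζ hζ
    have h1 : (Complex.log (ζ / ζ₀)).re = Real.log ‖ζ‖ - Real.log ‖ζ₀‖ := by
      rw [Complex.log_re, norm_div, Real.log_div (norm_ne_zero_iff.mpr hζ)
        (norm_ne_zero_iff.mpr hy)]
    simp only [G, lf, neck, mul_sub, Complex.add_re, Complex.sub_re, Complex.re_ofReal_mul,
      Complex.re_mul_ofReal, h1, hβ]
    ring
  have hder : ∀ ζ : ℂ, ζ ≠ 0 → ζ / ζ₀ ∈ Complex.slitPlane → HasDerivAt G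
      (a * (1 - ε / ζ ^ 2) + b * (2 * (c + ζ) - 2 * c' * (ε / ζ ^ 2) - 2 * ε ^ 2 / ζ ^ 3) +
        β * ζ⁻¹) ζ := by
    intro ζ hζ hs
    have hq : HasDerivAt (fun ζ : ℂ => (ε : ℂ) / ζ) (-(ε / ζ ^ 2)) ζ := by
      refine ((hasDerivAt_const ζ (ε : ℂ)).div (hasDerivAt_id ζ) hζ).congr_deriv ?_
      simp only [id]; field_simp; ring
    have hl : HasDerivAt (fun ζ : ℂ => Complex.log (ζ / ζ₀)) (ζ⁻¹) ζ := by
      refine (((hasDerivAt_id ζ).div_const ζ₀).clog hs).congr_deriv ?_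
      simp only [id]; field_simp
    have hi : HasDerivAt (fun ζ : ℂ => (c : ℂ) + ζ) 1 ζ := (hasDerivAt_id ζ).const_add _
    refine ((((hi.add hq).const_mul a).add ((((hi.pow 2).add (hq.const_mul (2 * (c' : ℂ)))).add
      (hq.pow 2)).const_mul b)).add (hl.const_mul (β : ℂ))).congr_deriv ?_
    simp only [Nat.cast_ofNat, Nat.add_one_sub_one, pow_one]; field_simp; ring
  have hmax : IsLocalMax (norm ∘ fun ζ => Complex.exp (G ζ)) ζ₀ := by
    filter_upwards [hm', hne] with ζ h1 h2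
    simp only [Function.comp, Complex.norm_exp]
    rw [hre ζ h2, hre ζ₀ hy]
    exact Real.exp_le_exp.mpr (by linarith)
  have hconst := Complex.eventually_eq_of_isLocalMax_norm (f := fun ζ => Complex.exp (G ζ))
    (by
      filter_upwards [hne, hslit] with ζ h1 h2
      exact (hder ζ h1 h2).differentiableAt.cexp) hmax
  have hpoly : ∀ᶠ ζ in 𝓝 ζ₀, 2 * b * ζ ^ 4 + (a + 2 * b * c) * ζ ^ 3 + β * ζ ^ 2 +
      (-(a * ε) - 2 * b * c' * ε) * ζ + (-(2 * b * ε ^ 2)) = 0 := by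
    filter_upwards [hconst.eventually_nhds, hne, hslit] with ζ h1 h2 h3
    have h4 := (hder ζ h2 h3).cexp
    have h5 : HasDerivAt (fun ζ => Complex.exp (G ζ)) 0 ζ :=
      (hasDerivAt_const ζ (Complex.exp (G ζ₀))).congr_of_eventuallyEq h1
    have h6 := (mul_eq_zero.mp (h4.unique h5)).resolve_left (Complex.exp_ne_zero _)
    have h7 : (a * (1 - ε / ζ ^ 2) + b * (2 * (c + ζ) - 2 * c' * (ε / ζ ^ 2) - 2 * ε ^ 2 / ζ ^ 3) +
        β * ζ⁻¹) * ζ ^ 3 = 0 := by rw [h6, zero_mul]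
    rw [← h7]; field_simp; ring
  let p : Polynomial ℂ := Polynomial.C (2 * b) * Polynomial.X ^ 4 +
    Polynomial.C (a + 2 * b * c) * Polynomial.X ^ 3 + Polynomial.C (β : ℂ) * Polynomial.X ^ 2 +
    Polynomial.C (-(a * ε) - 2 * b * c' * ε) * Polynomial.X + Polynomial.C (-(2 * b * ε ^ 2))
  have hp : p = 0 := by
    apply Polynomial.eq_zero_of_infinite_isRoot
    refine (infinite_of_mem_nhds ζ₀ hpoly).mono fun ζ hζ => ?_
    simpa [p, Polynomial.IsRoot] using hζ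
  have h4 : p.coeff 4 = 2 * b := by
    simp only [p, Polynomial.coeff_add, Polynomial.coeff_C_mul, Polynomial.coeff_X_pow,
      Polynomial.coeff_X, Polynomial.coeff_C]
    simp
  have h3 : p.coeff 3 = a + 2 * b * c := by
    simp only [p, Polynomial.coeff_add, Polynomial.coeff_C_mul, Polynomial.coeff_X_pow,
      Polynomial.coeff_X, Polynomial.coeff_C]
    simp
  rw [hp, Polynomial.coeff_zero] at h4 h3
  have hb : b = 0 := by simpa using h4.symm
  have ha : a = 0 := by simpa [hb] using h3.symm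
  rcases hab with h | h
  · exact h ha
  · exact h hb

theorem hasDerivAt_log_norm_line {ζ : ℂ} (hζ : ζ ≠ 0) (e : ℂ) :
    HasDerivAt (fun τ : ℝ => Real.log ‖ζ + τ • e‖) (e / ζ).re 0 := by
  have h1 : HasDerivAt (fun τ : ℝ => ζ + τ • e) e 0 := by
    simpa using ((hasDerivAt_id (0 : ℝ)).smul_const e).const_add ζ
  have h2 : HasDerivAt (fun τ : ℝ => Complex.log ((ζ + τ • e) / ζ)) (e / ζ) 0 := by
    have h3 := (h1.div_const ζ).clog_real (by simp [div_self hζ])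
    refine h3.congr_deriv ?_
    simp [div_self hζ]
  have h4 := (Complex.reCLM.hasFDerivAt.comp_hasDerivAt (0 : ℝ) h2).const_add (Real.log ‖ζ‖)
  refine h4.congr_of_eventuallyEq ?_
  have hne : ∀ᶠ τ : ℝ in 𝓝 0, ζ + τ • e ≠ 0 := (tendsto_line ζ e).eventually (isOpen_ne.mem_nhds hζ)
  filter_upwards [hne] with τ hτ
  simp only [Function.comp, Complex.reCLM_apply, Complex.log_re, norm_div]
  rw [Real.log_div (norm_ne_zero_iff.mpr hτ) (norm_ne_zero_iff.mpr hζ)]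
  ring

theorem neck_imm {κ ε c c' : ℝ} (hε : 0 < ε) (hd : 4 ≤ |c' - c|) {y : ℂ} (h1 : ε < ‖y - c‖)
    (h2 : ‖y - c‖ < 1) : Imm (fun y => neck κ ε c c' (y - c)) y := by
  intro e he
  set ζ : ℂ := y - c with hζd
  have hζ : ζ ≠ 0 := norm_pos_iff.mp (hε.trans h1)
  have he' : HasDerivAt (fun τ : ℝ => neck κ ε c c' (ζ + τ • e)) 0 0 := by
    refine he.congr_of_eventuallyEq (Eventually.of_forall fun τ => ?_)
    simp only [hζd]; congr 1; ring
  have hl := hasDerivAt_log_norm_line hζ e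
  have hi : HasDerivAt (fun τ : ℝ => ζ + τ • e) e 0 := by
    simpa using ((hasDerivAt_id (0 : ℝ)).smul_const e).const_add ζ
  have hq : HasDerivAt (fun τ : ℝ => (ε : ℂ) / (ζ + τ • e)) (-(ε * e / ζ ^ 2)) 0 := by
    refine ((hasDerivAt_const (0 : ℝ) (ε : ℂ)).div hi (by simpa using hζ)).congr_deriv ?_
    simp only [zero_smul, add_zero]; field_simp; ring
  have d1 : HasDerivAt (fun τ : ℝ => (neck κ ε c c' (ζ + τ • e)).1)
      (e - ε * e / ζ ^ 2 - ((κ * (c' - c) * (e / ζ).re : ℝ) : ℂ)) 0 := by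
    refine (((hi.const_add (c : ℂ)).add hq).sub
      (hl.const_mul (κ * (c' - c))).ofReal_comp).congr_deriv ?_
    ring
  have d2 : HasDerivAt (fun τ : ℝ => (neck κ ε c c' (ζ + τ • e)).2)
      (2 * (c + ζ) * e - 2 * c' * (ε * e / ζ ^ 2) - 2 * (ε / ζ) * (ε * e / ζ ^ 2) -
        ((κ * (c' ^ 2 - c ^ 2) * (e / ζ).re : ℝ) : ℂ)) 0 := by
    refine (((((hi.const_add (c : ℂ)).pow 2).add (hq.const_mul (2 * (c' : ℂ)))).add (hq.pow 2)).sub
      (hl.const_mul (κ * (c' ^ 2 - c ^ 2))).ofReal_comp).congr_deriv ?_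
    simp only [zero_smul, add_zero, Nat.cast_ofNat, Nat.add_one_sub_one, pow_one]
    ring
  have z1 := d1.unique (((ContinuousLinearMap.fst ℝ ℂ ℂ).hasFDerivAt.comp_hasDerivAt (0 : ℝ)
    he').congr_deriv (map_zero _))
  have z2 := d2.unique (((ContinuousLinearMap.snd ℝ ℂ ℂ).hasFDerivAt.comp_hasDerivAt (0 : ℝ)
    he').congr_deriv (map_zero _))
  obtain ⟨η, hη⟩ : ∃ η, e = ζ * η := ⟨e / ζ, by field_simp⟩
  obtain ⟨ζ', hζ'⟩ : ∃ ζ', (ε : ℂ) = ζ * ζ' := ⟨ε / ζ, by field_simp⟩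
  have e1 : e / ζ = η := by rw [hη]; field_simp
  have e2 : ε * e / ζ ^ 2 = ζ' * η := by rw [hη, hζ']; field_simp
  have e3 : (ε : ℂ) / ζ = ζ' := by rw [hζ']; field_simp
  rw [e1, e2] at z1 z2
  rw [e3] at z2
  push_cast at z1 z2
  have hn' : ‖ζ'‖ < 1 := by
    have : ‖ζ‖ * ‖ζ'‖ = ε := by
      rw [← norm_mul, ← hζ', Complex.norm_real, Real.norm_of_nonneg hε.le]
    by_contra hcon
    push Not at hcon
    nlinarith [norm_nonneg ζ]
  have hfac : η * (ζ + ζ') * (2 * (ζ - ζ') - (c' - c)) = 0 := by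
    rw [hη] at z1 z2
    linear_combination z2 - (c + c') * z1
  have hne : 2 * (ζ - ζ') - ((c' : ℂ) - c) ≠ 0 := by
    intro h
    have h3 : ((c' - c : ℝ) : ℂ) = 2 * (ζ - ζ') := by push_cast; linear_combination -h
    have h4 : |c' - c| = 2 * ‖ζ - ζ'‖ := by
      rw [← Real.norm_eq_abs, ← Complex.norm_real, h3, norm_mul]; simp
    have h5 := norm_sub_le ζ ζ'
    linarith
  rcases mul_eq_zero.mp ((mul_eq_zero.mp hfac).resolve_right hne) with h | h
  · rw [hη, h, mul_zero]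
  · have hz : ζ' = -ζ := by linear_combination h
    rw [hz] at hζ' z1
    have hre := congrArg Complex.re hζ'
    have him := congrArg Complex.im hζ'
    simp only [Complex.ofReal_re, Complex.ofReal_im, Complex.mul_re, Complex.mul_im,
      Complex.neg_re, Complex.neg_im] at hre him
    have hζre : ζ.re = 0 := by
      by_contra hcon
      have : ζ.im = 0 := by
        have : ζ.re * ζ.im = 0 := by linarith
        exact (mul_eq_zero.mp this).resolve_left hcon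
      rw [this] at hre
      nlinarith [sq_nonneg ζ.re]
    have hζim : ζ.im ≠ 0 := fun h => hζ (Complex.ext hζre h)
    have z3 : 2 * (ζ * η) = ((κ * (c' - c) * η.re : ℝ) : ℂ) := by
      push_cast; rw [hη] at z1; linear_combination z1
    have him2 := congrArg Complex.im z3
    simp only [Complex.ofReal_im, Complex.mul_im, hζre, Complex.re_ofNat, Complex.im_ofNat,
      zero_mul, zero_add, add_zero] at him2
    have hηre : η.re = 0 := by
      have : ζ.im * η.re = 0 := by linarith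
      exact (mul_eq_zero.mp this).resolve_left hζim
    rw [hηre] at z3
    rw [hη]
    simpa using z3

end Pool.Agent.Lib.MP_a9c398_gt
end

-- part Pool.Agent.Lib.MP_a9c398_gt.Veronese
section

/-! The projected Veronese surface `[u : z] ↦ (z u, u²) / (z² + t |u|²)` in `ℂ × ℂ`. -/

open Set Filter Topology
open scoped ContDiff

namespace Pool.Agent.Lib.MP_a9c398_gt

/-- The denominator of the Veronese map. -/
def den (t : ℝ) (p : ℂ × ℝ) : ℝ := p.2 ^ 2 + t * (p.1.re ^ 2 + p.1.im ^ 2)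

/-- The numerator of the Veronese map. -/
def num (p : ℂ × ℝ) : ℂ × ℂ := (p.2 * p.1, p.1 ^ 2)

/-- The projected Veronese map on `ℝ³ = ℂ × ℝ`, homogeneous of degree zero. -/
noncomputable def ver (t : ℝ) (p : ℂ × ℝ) : ℂ × ℂ := (den t p)⁻¹ • num p

theorem den_pos {t : ℝ} (ht : 0 < t) {p : ℂ × ℝ} (hp : p ≠ 0) : 0 < den t p := by
  obtain ⟨u, z⟩ := p
  unfold den
  by_contra hcon
  push Not at hcon
  have h1 : 0 ≤ t * (u.re ^ 2 + u.im ^ 2) := by positivity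
  have hz : z ^ 2 = 0 := by nlinarith [sq_nonneg z]
  have h2 : u.re ^ 2 + u.im ^ 2 = 0 := by
    have : t * (u.re ^ 2 + u.im ^ 2) = 0 := by simp only at hcon; nlinarith [sq_nonneg z]
    exact (mul_eq_zero.mp this).resolve_left ht.ne'
  have h3 : u.re = 0 := by nlinarith [sq_nonneg u.re, sq_nonneg u.im]
  have h4 : u.im = 0 := by nlinarith [sq_nonneg u.re, sq_nonneg u.im]
  exact hp (Prod.ext (Complex.ext h3 h4) (pow_eq_zero_iff (two_ne_zero) |>.mp hz))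

theorem den_smul (t r : ℝ) (p : ℂ × ℝ) : den t (r • p) = r ^ 2 * den t p := by
  simp [den]; ring

theorem num_smul (r : ℝ) (p : ℂ × ℝ) : num (r • p) = (r ^ 2) • num p := by
  ext <;> simp [num] <;> ring

theorem ver_smul (t : ℝ) {r : ℝ} (hr : r ≠ 0) (p : ℂ × ℝ) : ver t (r • p) = ver t p := by
  simp only [ver, den_smul, num_smul, smul_smul]
  congr 1
  rw [mul_inv, mul_assoc, mul_comm (den t p)⁻¹, ← mul_assoc, inv_mul_cancel₀ (pow_ne_zero 2 hr),
    one_mul]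

theorem ver_zero (y : ℂ) : ver 0 (y, 1) = par y := by
  simp [ver, den, num, par]

theorem contDiff_num {n : WithTop ℕ∞} : ContDiff ℝ n num := by
  have h : ContDiff ℝ n (fun p : ℂ × ℝ => (p.2 : ℂ)) :=
    Complex.ofRealCLM.contDiff.comp contDiff_snd
  exact (h.mul contDiff_fst).prodMk (contDiff_fst.pow 2)

theorem contDiff_den {n : WithTop ℕ∞} : ContDiff ℝ n (fun q : ℝ × (ℂ × ℝ) => den q.1 q.2) := by
  have h1 : ContDiff ℝ n (fun q : ℝ × (ℂ × ℝ) => q.2.1.re) :=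
    Complex.reCLM.contDiff.comp (by fun_prop)
  have h2 : ContDiff ℝ n (fun q : ℝ × (ℂ × ℝ) => q.2.1.im) :=
    Complex.imCLM.contDiff.comp (by fun_prop)
  unfold den
  fun_prop

theorem contDiffAt_ver {A : Type} [NormedAddCommGroup A] [NormedSpace ℝ A] {n : WithTop ℕ∞}
    {t : A → ℝ} {p : A → ℂ × ℝ} {x : A} (ht : ContDiffAt ℝ n t x) (hp : ContDiffAt ℝ n p x)
    (h0 : den (t x) (p x) ≠ 0) : ContDiffAt ℝ n (fun x => ver (t x) (p x)) x :=
  ((contDiff_den.contDiffAt.comp x (ht.prodMk hp)).inv h0).smul (contDiff_num.contDiffAt.comp x hp)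

theorem ver_kernel {t : ℝ} (ht : 0 < t) {p v : ℂ × ℝ} (hp : p ≠ 0)
    (h : HasDerivAt (fun τ : ℝ => ver t (p + τ • v)) 0 0) : ∃ μ : ℝ, v = μ • p := by
  have hl : HasDerivAt (fun τ : ℝ => p + τ • v) v 0 := by
    simpa using ((hasDerivAt_id (0 : ℝ)).smul_const v).const_add p
  have hcl : ContDiff ℝ 1 (fun τ : ℝ => p + τ • v) := by fun_prop
  have hden : DifferentiableAt ℝ (fun τ : ℝ => den t (p + τ • v)) 0 :=
    ((contDiff_den.comp (contDiff_const.prodMk hcl)).differentiable one_ne_zero) 0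
  set D := deriv (fun τ : ℝ => den t (p + τ • v)) 0
  have h1 := hden.hasDerivAt.smul h
  have hne : ∀ᶠ τ : ℝ in 𝓝 0, den t (p + τ • v) ≠ 0 :=
    hden.continuousAt.eventually_ne (by simpa using (den_pos ht hp).ne')
  have h2 : HasDerivAt (fun τ : ℝ => num (p + τ • v)) ((D * (den t p)⁻¹) • num p) 0 := by
    refine (h1.congr_deriv ?_).congr_of_eventuallyEq ?_
    · simp [ver, smul_smul, D]
    · filter_upwards [hne] with τ hτ
      simp only [Pi.smul_apply', ver, smul_smul, mul_inv_cancel₀ hτ, one_smul]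
  have hu : HasDerivAt (fun τ : ℝ => (p + τ • v).1) v.1 0 :=
    (ContinuousLinearMap.fst ℝ ℂ ℝ).hasFDerivAt.comp_hasDerivAt (0 : ℝ) hl
  have hz : HasDerivAt (fun τ : ℝ => (p + τ • v).2) v.2 0 :=
    (ContinuousLinearMap.snd ℝ ℂ ℝ).hasFDerivAt.comp_hasDerivAt (0 : ℝ) hl
  have h3 : HasDerivAt (fun τ : ℝ => num (p + τ • v))
      ((v.2 : ℂ) * p.1 + p.2 * v.1, 2 * p.1 * v.1) 0 := by
    refine ((hz.ofReal_comp.mul hu).prodMk (hu.pow 2)).congr_deriv ?_
    simp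
  have h4 := h3.unique h2
  set l : ℝ := D * (den t p)⁻¹
  obtain ⟨u, z⟩ := p
  obtain ⟨w, r⟩ := v
  simp only [num, Prod.smul_mk, Prod.mk.injEq, Complex.real_smul] at h4
  obtain ⟨e1, e2⟩ := h4
  by_cases hu0 : u = 0
  · subst hu0
    have hz0 : z ≠ 0 := fun h => hp (by simp [h])
    have hw : w = 0 := by simpa [hz0] using e1
    exact ⟨r / z, by simp [hw, hz0]⟩
  · have hw : w = ((l / 2 : ℝ) : ℂ) * u := by
      apply mul_left_cancel₀ hu0
      push_cast; linear_combination e2 / 2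
    have hr : (r : ℂ) = ((l / 2 * z : ℝ) : ℂ) := by
      apply mul_left_cancel₀ hu0
      rw [hw] at e1
      push_cast at e1 ⊢; linear_combination e1
    exact ⟨l / 2, by
      rw [hw, Complex.ofReal_injective hr]
      simp⟩

/-- The quadratic form `ℓ ∘ num - m · den`. -/
def qf (a b : ℂ) (t m : ℝ) (p : ℂ × ℝ) : ℝ := lf a b (num p) - m * den t p

theorem qf_comb (a b : ℂ) (t m α β : ℝ) (p v : ℂ × ℝ) :
    qf a b t m (α • p + β • v) = α ^ 2 * qf a b t m p +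
      α * β * (qf a b t m (p + v) - qf a b t m p - qf a b t m v) + β ^ 2 * qf a b t m v := by
  simp only [qf, lf, num, den, Prod.fst_add, Prod.snd_add, Prod.smul_fst, Prod.smul_snd,
    Complex.real_smul, smul_eq_mul, pow_two, Complex.add_re, Complex.add_im, Complex.mul_re,
    Complex.mul_im, Complex.ofReal_re, Complex.ofReal_im]
  ring

theorem lf_ver (a b : ℂ) (t : ℝ) (p : ℂ × ℝ) :
    lf a b (ver t p) = (den t p)⁻¹ * lf a b (num p) := by
  simp only [lf, ver, Prod.smul_fst, Prod.smul_snd, Complex.real_smul]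
  rw [← Complex.re_ofReal_mul]
  congr 1; ring

theorem qf_eq {t : ℝ} (ht : 0 < t) (a b : ℂ) (m : ℝ) {p : ℂ × ℝ} (hp : p ≠ 0) :
    qf a b t m p = den t p * (lf a b (ver t p) - m) := by
  have := (den_pos ht hp).ne'
  rw [lf_ver, qf]; field_simp

theorem rayleigh_one {t : ℝ} (ht : 0 < t) {a b : ℂ} {p : ℂ × ℝ} (hp : p ≠ 0)
    (hm : IsLocalMax (fun p' => lf a b (ver t p')) p) (v : ℂ × ℝ) :
    qf a b t (lf a b (ver t p)) (p + v) - qf a b t (lf a b (ver t p)) v = 0 ∧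
      qf a b t (lf a b (ver t p)) v ≤ 0 := by
  set m := lf a b (ver t p) with hmd
  have h0 : qf a b t m p = 0 := by rw [qf_eq ht a b m hp, hmd, sub_self, mul_zero]
  have hl : Tendsto (fun τ : ℝ => p + τ • v) (𝓝 0) (𝓝 p) := by
    have : Continuous (fun τ : ℝ => p + τ • v) := by fun_prop
    simpa using this.tendsto 0
  have hloc : IsLocalMax (fun τ : ℝ => (0 : ℝ) + (qf a b t m (p + v) - qf a b t m v) * τ +
      qf a b t m v * τ ^ 2) 0 := by
    filter_upwards [hl.eventually hm, hl.eventually (isOpen_ne.mem_nhds hp)] with τ h1 h2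
    have h3 := qf_comb a b t m 1 τ p v
    rw [one_smul, h0, qf_eq ht a b m h2] at h3
    have h4 := den_pos ht h2
    have h5 : den t (p + τ • v) * (lf a b (ver t (p + τ • v)) - m) ≤ 0 :=
      mul_nonpos_of_nonneg_of_nonpos h4.le (sub_nonpos.mpr h1)
    nlinarith
  by_contra hcon
  refine not_isLocalMax_of_deriv (by fun_prop) ?_ hloc
  rw [deriv_quad, deriv_lin]
  by_cases h : qf a b t m (p + v) - qf a b t m v = 0
  · right
    have : ¬ qf a b t m v ≤ 0 := fun h' => hcon ⟨h, h'⟩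
    linarith [not_le.mp this]
  · left; simpa using h

theorem rayleigh {t : ℝ} (ht : 0 < t) {a b : ℂ} {p₁ p₂ : ℂ × ℝ} (hp₁ : p₁ ≠ 0) (hp₂ : p₂ ≠ 0)
    (hm₁ : IsLocalMax (fun p' => lf a b (ver t p')) p₁)
    (hm₂ : IsLocalMax (fun p' => lf a b (ver t p')) p₂) (α β : ℝ) (hv : α • p₁ + β • p₂ ≠ 0)
    {w : ℂ × ℝ} (hw : w ≠ 0) : lf a b (ver t w) ≤ lf a b (ver t (α • p₁ + β • p₂)) := by
  have hle : ∀ {p : ℂ × ℝ}, p ≠ 0 → IsLocalMax (fun p' => lf a b (ver t p')) p →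
      ∀ {w : ℂ × ℝ}, w ≠ 0 → lf a b (ver t w) ≤ lf a b (ver t p) := by
    intro p hp hm w hw
    have h1 := (rayleigh_one ht hp hm w).2
    rw [qf_eq ht a b _ hw] at h1
    have h2 := den_pos ht hw
    by_contra hcon
    push Not at hcon
    nlinarith [mul_pos h2 (sub_pos.mpr hcon)]
  have he : lf a b (ver t p₂) = lf a b (ver t p₁) :=
    le_antisymm (hle hp₁ hm₁ hp₂) (hle hp₂ hm₂ hp₁)
  set m := lf a b (ver t p₁) with hmd
  have h1 : qf a b t m p₁ = 0 := by rw [qf_eq ht a b m hp₁, hmd, sub_self, mul_zero]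
  have h2 : qf a b t m p₂ = 0 := by rw [qf_eq ht a b m hp₂, he, sub_self, mul_zero]
  have h3 := (rayleigh_one ht hp₁ hm₁ p₂).1
  have h4 := qf_comb a b t m α β p₁ p₂
  rw [← hmd] at h3
  rw [h1, h2, sub_zero] at *
  rw [h3, qf_eq ht a b m hv] at h4
  have h5 : lf a b (ver t (α • p₁ + β • p₂)) - m = 0 := by
    have h6 : den t (α • p₁ + β • p₂) * (lf a b (ver t (α • p₁ + β • p₂)) - m) = 0 := by
      rw [h4]; ring
    exact (mul_eq_zero.mp h6).resolve_left (den_pos ht hv).ne'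
  have := hle hp₁ hm₁ hw
  linarith

end Pool.Agent.Lib.MP_a9c398_gt
end

-- part Pool.Agent.Lib.MP_a9c398_gt.Affine
section

/-! The map in the affine chart: the Veronese map with the necks put in, and the choice of the
small parameters. -/

open Set Filter Topology
open scoped ContDiff

namespace Pool.Agent.Lib.MP_a9c398_gt

variable {k : ℕ}

/-- The centres of the holes. -/
noncomputable def cen (a : Fin k × Bool) : ℝ := 8 * (a.1 : ℕ) + if a.2 then 4 else 0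

/-- The partner of a hole. -/
def par2 (a : Fin k × Bool) : Fin k × Bool := (a.1, !a.2)

/-- A radius beyond which nothing is modified. -/
noncomputable def rad (k : ℕ) : ℝ := 8 * k + 2

theorem par2_par2 (a : Fin k × Bool) : par2 (par2 a) = a := by simp [par2]

theorem par2_ne (a : Fin k × Bool) : par2 a ≠ a := by
  obtain ⟨i, b⟩ := a
  cases b <;> simp [par2]

theorem cen_sep {a b : Fin k × Bool} (h : a ≠ b) : 4 ≤ |cen a - cen b| := by
  obtain ⟨i, x⟩ := a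
  obtain ⟨j, y⟩ := b
  have key : ∀ m n : ℤ, m ≠ n → (4 : ℝ) ≤ |4 * (m : ℝ) - 4 * (n : ℝ)| := by
    intro m n hmn
    have h1 : (1 : ℤ) ≤ |m - n| := Int.one_le_abs (sub_ne_zero.mpr hmn)
    have h2 : (1 : ℝ) ≤ |(m : ℝ) - n| := by exact_mod_cast h1
    rw [← mul_sub, abs_mul]
    norm_num
    linarith
  have hc : ∀ (i : Fin k) (x : Bool),
      cen (i, x) = 4 * ((2 * (i : ℕ) + (if x then 1 else 0) : ℤ) : ℝ) := by
    intro i x
    cases x <;> simp [cen] <;> ring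
  rw [hc, hc]
  apply key
  intro he
  apply h
  cases x <;> cases y <;> simp at he ⊢ <;> omega

theorem cen_sep_norm {a b : Fin k × Bool} (h : a ≠ b) : 4 ≤ ‖(cen a : ℂ) - cen b‖ := by
  rw [← Complex.ofReal_sub, Complex.norm_real]
  exact cen_sep h

theorem norm_cen (a : Fin k × Bool) : ‖(cen a : ℂ)‖ + 2 ≤ rad k := by
  have h1 : ((a.1 : ℕ) : ℝ) + 1 ≤ k := by exact_mod_cast a.1.2
  have h2 : (0 : ℝ) ≤ (a.1 : ℕ) := Nat.cast_nonneg _
  rw [Complex.norm_real, Real.norm_eq_abs, cen, rad]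
  split_ifs <;> rw [abs_of_nonneg (by linarith)] <;> linarith

theorem rad_ge (k : ℕ) : 2 ≤ rad k := by
  have : (0 : ℝ) ≤ k := Nat.cast_nonneg _
  unfold rad; linarith

theorem far_of_near {a b : Fin k × Bool} (h : a ≠ b) {y : ℂ} (hy : ‖y - cen a‖ ≤ 1) :
    3 ≤ ‖y - cen b‖ := by
  have h1 := cen_sep_norm h
  have h2 : (cen a : ℂ) - cen b = (y - cen b) - (y - cen a) := by ring
  have h3 := norm_sub_le (y - cen b) (y - cen a)
  rw [h2] at h1
  linarith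

theorem far_of_big (a : Fin k × Bool) {y : ℂ} (hy : rad k ≤ ‖y‖) : 2 ≤ ‖y - cen a‖ := by
  have h1 := norm_cen a
  have h2 := norm_sub_norm_le y (cen a)
  linarith

/-- The cut-off function. -/
noncomputable def bump : ContDiffBump (0 : ℂ) := ⟨1, 3 / 2, by norm_num, by norm_num⟩

/-- The map in the affine chart. -/
noncomputable def aff (k : ℕ) (t κ ε : ℝ) (y : ℂ) : ℂ × ℂ :=
  ver t (y, 1) + ∑ a : Fin k × Bool,
    bump (y - cen a) • (neck κ ε (cen a) (cen (par2 a)) (y - cen a) - ver t (y, 1))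

theorem bump_one {ζ : ℂ} (h : ‖ζ‖ ≤ 1) : bump ζ = 1 :=
  bump.one_of_mem_closedBall (by simpa [bump] using h)

theorem bump_zero {ζ : ℂ} (h : 2 ≤ ‖ζ‖) : bump ζ = 0 :=
  bump.zero_of_le_dist (by simp only [bump, dist_zero_right]; linarith)

theorem aff_neck (t κ ε : ℝ) {a : Fin k × Bool} {y : ℂ} (hy : ‖y - cen a‖ ≤ 1) :
    aff k t κ ε y = neck κ ε (cen a) (cen (par2 a)) (y - cen a) := by
  rw [aff, Finset.sum_eq_single a, bump_one hy]
  · simp
  · intro b _ hb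
    rw [bump_zero (by linarith [far_of_near hb.symm hy]), zero_smul]
  · simp

theorem aff_out (t κ ε : ℝ) {y : ℂ} (hy : rad k ≤ ‖y‖) : aff k t κ ε y = ver t (y, 1) := by
  rw [aff, Finset.sum_eq_zero, add_zero]
  intro a _
  rw [bump_zero (far_of_big a hy), zero_smul]

theorem aff_zero : aff k 0 0 0 = par := by
  ext1 y
  simp [aff, neck_zero, ver_zero]

theorem contDiffAt_aff {A : Type} [NormedAddCommGroup A] [NormedSpace ℝ A] {n : ℕ∞}
    {t κ ε : A → ℝ} {y : A → ℂ} {x : A} (ht : ContDiffAt ℝ n t x) (hκ : ContDiffAt ℝ n κ x)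
    (hε : ContDiffAt ℝ n ε x) (hy : ContDiffAt ℝ n y x) (h0 : 0 ≤ t x)
    (h1 : ∀ a : Fin k × Bool, y x - cen a ≠ 0) :
    ContDiffAt ℝ n (fun x => aff k (t x) (κ x) (ε x) (y x)) x := by
  have hv : ContDiffAt ℝ n (fun x => ver (t x) (y x, 1)) x := by
    refine contDiffAt_ver ht (hy.prodMk contDiffAt_const) ?_
    have : 0 < den (t x) (y x, 1) := by unfold den; positivity
    exact this.ne'
  refine hv.add (ContDiffAt.sum fun a _ => ?_)
  have hζ : ContDiffAt ℝ n (fun x => y x - cen a) x := hy.sub contDiffAt_const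
  exact (bump.contDiff.contDiffAt.comp x hζ).smul
    ((contDiffAt_neck _ _ hκ hε hζ (h1 a)).sub hv)

/-- The properties of the small parameters that are used. -/
structure Good (k : ℕ) (t κ δ : ℝ) : Prop where
  t_pos : 0 < t
  δ_pos : 0 < δ
  δ_lt : δ < 1
  log : κ * Real.log (δ ^ 2) = -1
  ver_noMax : ∀ y : ℂ, ‖y‖ ≤ rad k → NoMax (fun y => ver t (y, 1)) y
  aff_noMax : ∀ y : ℂ, ‖y‖ ≤ rad k → (∀ a : Fin k × Bool, δ ^ 2 < ‖y - cen a‖) →
    NoMax (aff k t κ (δ ^ 2)) y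
  aff_imm : ∀ y : ℂ, ‖y‖ ≤ rad k → (∀ a : Fin k × Bool, δ ^ 2 < ‖y - cen a‖) →
    Imm (aff k t κ (δ ^ 2)) y

theorem exists_good (k : ℕ) : ∃ t κ δ : ℝ, Good k t κ δ := by
  let K : Set ℂ := Metric.closedBall 0 (rad k) ∩ ⋂ a : Fin k × Bool, {y | 1 ≤ ‖y - cen a‖}
  have hK : IsCompact K := (isCompact_closedBall _ _).inter_right
    (isClosed_iInter fun a => isClosed_le continuous_const (by fun_prop))
  let Φ : ℝ × ℝ × ℝ → ℂ → ℂ × ℂ := fun s y => aff k s.1 s.2.1 s.2.2 y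
  let Φ' : ℝ × ℝ × ℝ → ℂ → ℂ × ℂ := fun s y => ver s.1 (y, 1)
  have hΦ : ∀ y ∈ K, ContDiffAt ℝ (2 : ℕ) (Function.uncurry Φ) (0, y) := by
    intro y hy
    refine contDiffAt_aff (n := (2 : ℕ)) (t := fun q : (ℝ × ℝ × ℝ) × ℂ => q.1.1)
      (κ := fun q => q.1.2.1) (ε := fun q => q.1.2.2) (y := fun q => q.2)
      (by fun_prop) (by fun_prop) (by fun_prop) (by fun_prop) le_rfl fun a h => ?_
    have := mem_iInter.mp hy.2 a
    simp only [mem_ofPred_eq] at this h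
    rw [h] at this
    norm_num at this
  have hΦ' : ∀ y ∈ Metric.closedBall (0 : ℂ) (rad k),
      ContDiffAt ℝ (2 : ℕ) (Function.uncurry Φ') (0, y) := by
    intro y _
    refine contDiffAt_ver (t := fun q : (ℝ × ℝ × ℝ) × ℂ => q.1.1) (p := fun q => (q.2, 1))
      (by fun_prop) (by fun_prop) ?_
    simp [den]
  have e1 := perturb_noMax hK (Φ := Φ) aff_zero hΦ
  have e2 := perturb_imm hK (Φ := Φ) aff_zero hΦ
  have e3 := perturb_noMax (isCompact_closedBall (0 : ℂ) (rad k)) (Φ := Φ')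
    (by ext1 y; exact ver_zero y) hΦ'
  have hsq : Tendsto (fun δ : ℝ => δ ^ 2) (𝓝[>] 0) (𝓝[>] 0) := by
    refine tendsto_nhdsWithin_iff.mpr ⟨?_, ?_⟩
    · have : Continuous fun δ : ℝ => δ ^ 2 := by fun_prop
      simpa using (this.tendsto 0).mono_left nhdsWithin_le_nhds
    · filter_upwards [self_mem_nhdsWithin] with δ hδ using pow_pos (mem_Ioi.mp hδ) 2
  have hlim : Tendsto (fun δ : ℝ => (δ, -(Real.log (δ ^ 2))⁻¹, δ ^ 2)) (𝓝[>] 0)
      (𝓝 (0 : ℝ × ℝ × ℝ)) := by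
    refine Tendsto.prodMk_nhds (tendsto_id.mono_left nhdsWithin_le_nhds)
      (Tendsto.prodMk_nhds ?_ (hsq.mono_right nhdsWithin_le_nhds))
    have := (tendsto_inv_atBot_zero.comp (Real.tendsto_log_nhdsGT_zero.comp hsq)).neg
    simpa using this
  have hlt : ∀ᶠ δ : ℝ in 𝓝[>] 0, δ < 1 := nhdsWithin_le_nhds (gt_mem_nhds one_pos)
  obtain ⟨δ, h1, h2, h3, h4, h5⟩ := ((hlim.eventually e1).and ((hlim.eventually e2).and
    ((hlim.eventually e3).and (hlt.and self_mem_nhdsWithin)))).exists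
  have hδ : 0 < δ := h5
  have hε : 0 < δ ^ 2 := pow_pos hδ 2
  have hneck : ∀ (a : Fin k × Bool) (y : ℂ), ‖y - cen a‖ < 1 →
      (fun y => neck (-(Real.log (δ ^ 2))⁻¹) (δ ^ 2) (cen a) (cen (par2 a)) (y - cen a)) =ᶠ[𝓝 y]
        aff k δ (-(Real.log (δ ^ 2))⁻¹) (δ ^ 2) := by
    intro a y hy
    have : ∀ᶠ y' in 𝓝 y, ‖y' - (cen a : ℂ)‖ < 1 :=
      (isOpen_lt (by fun_prop) continuous_const).mem_nhds hy
    filter_upwards [this] with y' hy'
    rw [aff_neck _ _ _ hy'.le]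
  have hcase : ∀ y : ℂ, ‖y‖ ≤ rad k → y ∈ K ∨ ∃ a : Fin k × Bool, ‖y - cen a‖ < 1 := by
    intro y hy
    by_cases h : ∃ a : Fin k × Bool, ‖y - cen a‖ < 1
    · exact Or.inr h
    · push Not at h
      exact Or.inl ⟨by simpa using hy, mem_iInter.mpr h⟩
  refine ⟨δ, -(Real.log (δ ^ 2))⁻¹, δ, hδ, hδ, h4, ?_, fun y hy => h3 y (by simpa using hy),
    fun y hy hy' => ?_, fun y hy hy' => ?_⟩
  · have : Real.log (δ ^ 2) ≠ 0 := (Real.log_neg hε (by nlinarith)).ne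
    field_simp
  · rcases hcase y hy with h | ⟨a, ha⟩
    · exact h1 y h
    · exact (neck_noMax _ _ _ _ (norm_pos_iff.mp (hε.trans (hy' a)))).congr (hneck a y ha)
  · rcases hcase y hy with h | ⟨a, ha⟩
    · exact h2 y h
    · exact (neck_imm hε (cen_sep (par2_ne a)) (hy' a) ha).congr (hneck a y ha)

end Pool.Agent.Lib.MP_a9c398_gt
end

-- part Pool.Agent.Lib.MP_a9c398_gt.Surface
section

/-! The surface: the quotient of an open cone in `ℝ³` by scaling and by the plumbing relation. -/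

open Set Filter Topology
open scoped ContDiff

namespace Pool.Agent.Lib.MP_a9c398_gt

variable {k : ℕ} {ε : ℝ}

/-- The open cone over the projective plane minus closed discs of radius `ε`. -/
def Om (k : ℕ) (ε : ℝ) : Set (ℂ × ℝ) :=
  {p | p ≠ 0 ∧ ∀ a : Fin k × Bool, ε * |p.2| < ‖p.1 - p.2 * cen a‖}

/-- The plumbing relation `ζ ζ' = ε` in homogeneous form. -/
def Glue (ε : ℝ) (a : Fin k × Bool) (p p' : ℂ × ℝ) : Prop :=
  (p.1 - p.2 * cen a) * (p'.1 - p'.2 * cen (par2 a)) = ε * p.2 * p'.2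

/-- Scaling or plumbing. -/
def Rel (k : ℕ) (ε : ℝ) (p p' : ℂ × ℝ) : Prop :=
  (∃ r : ℝ, p' = r • p) ∨ ∃ a : Fin k × Bool, Glue ε a p p'

/-- The surface. -/
abbrev Surf (k : ℕ) (ε : ℝ) : Type := Quot fun p p' : Om k ε => Rel k ε p p'

theorem isOpen_Om (k : ℕ) (ε : ℝ) : IsOpen (Om k ε) := by
  have : Om k ε = {p | p ≠ 0} ∩ ⋂ a : Fin k × Bool,
      {p : ℂ × ℝ | ε * |p.2| < ‖p.1 - p.2 * cen a‖} := by
    ext p; simp [Om]
  rw [this]
  exact isOpen_ne.inter (isOpen_iInter_of_finite fun a => isOpen_lt (by fun_prop) (by fun_prop))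

theorem norm_sub_eq {p : ℂ × ℝ} (hz : p.2 ≠ 0) (c : ℂ) :
    ‖p.1 - p.2 * c‖ = |p.2| * ‖p.1 / p.2 - c‖ := by
  have hz' : (p.2 : ℂ) ≠ 0 := by exact_mod_cast hz
  have : p.1 - p.2 * c = p.2 * (p.1 / p.2 - c) := by field_simp
  rw [this, norm_mul, Complex.norm_real, Real.norm_eq_abs]

theorem mem_Om_iff {p : ℂ × ℝ} (hz : p.2 ≠ 0) :
    p ∈ Om k ε ↔ ∀ a : Fin k × Bool, ε < ‖p.1 / p.2 - cen a‖ := by
  have h0 : p ≠ 0 := fun h => hz (by simp [h])
  have h1 : 0 < |p.2| := abs_pos.mpr hz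
  simp only [Om, mem_ofPred_eq, ne_eq, h0, not_false_eq_true, true_and, norm_sub_eq hz]
  refine forall_congr' fun a => ?_
  rw [mul_comm ε, mul_lt_mul_iff_right₀ h1]

theorem mem_Om_one {y : ℂ} : (y, (1 : ℝ)) ∈ Om k ε ↔ ∀ a : Fin k × Bool, ε < ‖y - cen a‖ := by
  rw [mem_Om_iff (by simp)]; simp

theorem smul_mem_Om {p : ℂ × ℝ} {r : ℝ} (hr : r ≠ 0) (hp : p ∈ Om k ε) : r • p ∈ Om k ε := by
  refine ⟨smul_ne_zero hr hp.1, fun a => ?_⟩
  have h1 : (r • p).1 - ((r • p).2 : ℝ) * (cen a : ℂ) = (r : ℂ) * (p.1 - p.2 * cen a) := by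
    simp only [Prod.smul_fst, Prod.smul_snd, Complex.real_smul, smul_eq_mul]; push_cast; ring
  rw [h1, norm_mul, Complex.norm_real, Real.norm_eq_abs, Prod.smul_snd, smul_eq_mul, abs_mul,
    mul_left_comm]
  exact mul_lt_mul_of_pos_left (hp.2 a) (abs_pos.mpr hr)

theorem div_smul {p : ℂ × ℝ} {r : ℝ} (hr : r ≠ 0) :
    (r • p).1 / (((r • p).2 : ℝ) : ℂ) = p.1 / p.2 := by
  have hr' : (r : ℂ) ≠ 0 := by exact_mod_cast hr
  simp only [Prod.smul_fst, Prod.smul_snd, Complex.real_smul, smul_eq_mul]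
  push_cast
  rw [mul_div_mul_left _ _ hr']

theorem eq_smul_one {p : ℂ × ℝ} (hz : p.2 ≠ 0) : p = p.2 • (p.1 / p.2, (1 : ℝ)) := by
  have hz' : (p.2 : ℂ) ≠ 0 := by exact_mod_cast hz
  ext
  · simp only [Prod.smul_fst, Complex.real_smul]; field_simp
  · simp

theorem eq_smul_of_div_eq {p p' : ℂ × ℝ} (hz : p.2 ≠ 0) (hz' : p'.2 ≠ 0)
    (h : p.1 / p.2 = p'.1 / p'.2) : p' = (p'.2 / p.2) • p := by
  conv_rhs => rw [eq_smul_one hz, smul_smul]
  rw [h]
  conv_lhs => rw [eq_smul_one hz']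
  congr 1
  simp [hz]

theorem glue_iff {a : Fin k × Bool} {p p' : ℂ × ℝ} (hz : p.2 ≠ 0) (hz' : p'.2 ≠ 0) :
    Glue ε a p p' ↔ (p.1 / p.2 - cen a) * (p'.1 / p'.2 - cen (par2 a)) = ε := by
  have h1 : (p.2 : ℂ) ≠ 0 := by exact_mod_cast hz
  have h2 : (p'.2 : ℂ) ≠ 0 := by exact_mod_cast hz'
  have h3 : (p.1 / p.2 - cen a) * (p'.1 / p'.2 - cen (par2 a)) =
      (p.1 - p.2 * cen a) * (p'.1 - p'.2 * cen (par2 a)) / (p.2 * p'.2) := by field_simp
  rw [h3, div_eq_iff (mul_ne_zero h1 h2), Glue, mul_assoc]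

theorem Glue.symm {a : Fin k × Bool} {p p' : ℂ × ℝ} (h : Glue ε a p p') :
    Glue ε (par2 a) p' p := by
  unfold Glue at h ⊢
  rw [par2_par2]
  linear_combination h

theorem Glue.ne (hε : 0 < ε) {a : Fin k × Bool} {p p' : ℂ × ℝ} (hp : p ∈ Om k ε)
    (hp' : p' ∈ Om k ε) (h : Glue ε a p p') : p.2 ≠ 0 := by
  intro hz
  have h1 : 0 < ‖p.1 - p.2 * cen a‖ := lt_of_le_of_lt (by positivity) (hp.2 a)
  have h2 : 0 < ‖p'.1 - p'.2 * cen (par2 a)‖ := lt_of_le_of_lt (by positivity) (hp'.2 _)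
  unfold Glue at h
  have h3 : (ε : ℂ) * p.2 * p'.2 = 0 := by simp [hz]
  rw [h3] at h
  exact mul_ne_zero (norm_pos_iff.mp h1) (norm_pos_iff.mp h2) h

theorem Glue.lt_one (hε : 0 < ε) {a : Fin k × Bool} {p p' : ℂ × ℝ} (hp : p ∈ Om k ε)
    (hp' : p' ∈ Om k ε) (h : Glue ε a p p') : ‖p.1 / p.2 - cen a‖ < 1 := by
  have hz := h.ne hε hp hp'
  have hz' := h.symm.ne hε hp' hp
  have h1 := (glue_iff hz hz').mp h
  have h2 := (mem_Om_iff hz').mp hp' (par2 a)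
  have h3 : ‖p.1 / p.2 - cen a‖ * ‖p'.1 / p'.2 - cen (par2 a)‖ = ε := by
    rw [← norm_mul, h1, Complex.norm_real, Real.norm_of_nonneg hε.le]
  by_contra hcon
  push Not at hcon
  nlinarith

theorem Glue.smul_left {a : Fin k × Bool} {p p' : ℂ × ℝ} (h : Glue ε a p p') (r : ℝ) :
    Glue ε a (r • p) p' := by
  unfold Glue at h ⊢
  simp only [Prod.smul_fst, Prod.smul_snd, Complex.real_smul, smul_eq_mul]
  push_cast
  linear_combination (r : ℂ) * h

theorem Glue.smul_right {a : Fin k × Bool} {p p' : ℂ × ℝ} (h : Glue ε a p p') (r : ℝ) :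
    Glue ε a p (r • p') := by
  unfold Glue at h ⊢
  simp only [Prod.smul_fst, Prod.smul_snd, Complex.real_smul, smul_eq_mul]
  push_cast
  linear_combination (r : ℂ) * h

theorem smul_symm {p p' : ℂ × ℝ} (hp' : p' ≠ 0) {r : ℝ} (h : p' = r • p) :
    r ≠ 0 ∧ p = r⁻¹ • p' := by
  have hr : r ≠ 0 := by
    rintro rfl
    exact hp' (by simp [h])
  exact ⟨hr, by rw [h, smul_smul, inv_mul_cancel₀ hr, one_smul]⟩

theorem Rel.symm {p p' : ℂ × ℝ} (hp' : p' ≠ 0) (h : Rel k ε p p') : Rel k ε p' p := by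
  rcases h with ⟨r, h⟩ | ⟨a, h⟩
  · exact Or.inl ⟨_, (smul_symm hp' h).2⟩
  · exact Or.inr ⟨_, h.symm⟩

theorem Rel.trans (hε : 0 < ε) {p p' p'' : ℂ × ℝ} (hp : p ∈ Om k ε) (hp' : p' ∈ Om k ε)
    (hp'' : p'' ∈ Om k ε) (h : Rel k ε p p') (h' : Rel k ε p' p'') : Rel k ε p p'' := by
  rcases h with ⟨r, h⟩ | ⟨a, h⟩
  · rcases h' with ⟨r', h'⟩ | ⟨a, h'⟩
    · exact Or.inl ⟨r' * r, by rw [h', h, smul_smul]⟩
    · exact Or.inr ⟨a, by rw [(smul_symm hp'.1 h).2]; exact h'.smul_left _⟩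
  · rcases h' with ⟨r', h'⟩ | ⟨b, h'⟩
    · exact Or.inr ⟨a, by rw [h']; exact h.smul_right _⟩
    · have h1 := h.symm.lt_one hε hp' hp
      have h2 := h'.lt_one hε hp' hp''
      have hab : par2 a = b := by
        by_contra hne
        linarith [far_of_near hne h1.le]
      subst hab
      have hz := h.ne hε hp hp'
      have hz' := h'.ne hε hp' hp''
      have hz'' := h'.symm.ne hε hp'' hp'
      have e1 := (glue_iff hz hz').mp h
      have e2 := (glue_iff hz' hz'').mp h'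
      rw [par2_par2] at e2
      have hne : p'.1 / p'.2 - cen (par2 a) ≠ 0 :=
        norm_pos_iff.mp (hε.trans ((mem_Om_iff hz').mp hp' _))
      have e3 : p.1 / p.2 = p''.1 / p''.2 := by
        apply mul_left_cancel₀ hne
        linear_combination e1 - e2
      exact Or.inl ⟨_, eq_smul_of_div_eq hz hz'' e3⟩

theorem rel_equivalence (hε : 0 < ε) : Equivalence fun p p' : Om k ε => Rel k ε p p' :=
  ⟨fun p => Or.inl ⟨1, by simp⟩, fun {_ p'} h => h.symm p'.2.1,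
    fun {p p' p''} h h' => h.trans hε p.2 p'.2 p''.2 h'⟩

theorem mk_eq_iff (hε : 0 < ε) (p p' : Om k ε) :
    (Quot.mk _ p : Surf k ε) = Quot.mk _ p' ↔ Rel k ε p p' :=
  Quot.eq.trans (rel_equivalence hε).eqvGen_iff

theorem one_zero_mem : ((1 : ℂ), (0 : ℝ)) ∈ Om k ε := ⟨by simp, by simp⟩

open Classical in
/-- The projection to the surface (with a junk value outside the cone). -/
noncomputable def pr (k : ℕ) (ε : ℝ) (p : ℂ × ℝ) : Surf k ε :=
  if h : p ∈ Om k ε then Quot.mk _ ⟨p, h⟩ else Quot.mk _ ⟨(1, 0), one_zero_mem⟩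

theorem pr_of_mem {p : ℂ × ℝ} (h : p ∈ Om k ε) : pr k ε p = Quot.mk _ ⟨p, h⟩ := dif_pos h

theorem pr_eq_iff (hε : 0 < ε) {p p' : ℂ × ℝ} (h : p ∈ Om k ε) (h' : p' ∈ Om k ε) :
    pr k ε p = pr k ε p' ↔ Rel k ε p p' := by
  rw [pr_of_mem h, pr_of_mem h', mk_eq_iff hε]

theorem pr_smul (hε : 0 < ε) {p : ℂ × ℝ} (h : p ∈ Om k ε) {r : ℝ} (hr : r ≠ 0) :
    pr k ε (r • p) = pr k ε p :=
  ((pr_eq_iff hε h (smul_mem_Om hr h)).mpr (Or.inl ⟨r, rfl⟩)).symm

theorem pr_surj (x : Surf k ε) : ∃ p ∈ Om k ε, pr k ε p = x := by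
  obtain ⟨p, rfl⟩ := Quot.exists_rep x
  exact ⟨p, p.2, pr_of_mem p.2⟩

theorem continuous_mk : Continuous (Quot.mk _ : Om k ε → Surf k ε) := continuous_quot_mk

theorem continuousOn_pr : ContinuousOn (pr k ε) (Om k ε) := by
  rw [continuousOn_iff_continuous_domRestrict]
  exact continuous_mk.congr fun p => (pr_of_mem p.2).symm

theorem continuousAt_pr {p : ℂ × ℝ} (h : p ∈ Om k ε) : ContinuousAt (pr k ε) p :=
  continuousOn_pr.continuousAt ((isOpen_Om k ε).mem_nhds h)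

theorem contDiffAt_div {n : WithTop ℕ∞} {p : ℂ × ℝ} (hz : p.2 ≠ 0) :
    ContDiffAt ℝ n (fun p : ℂ × ℝ => p.1 / (p.2 : ℂ)) p := by
  have h : ContDiff ℝ n (fun p : ℂ × ℝ => (p.2 : ℂ)) :=
    Complex.ofRealCLM.contDiff.comp contDiff_snd
  simp only [div_eq_mul_inv]
  exact contDiffAt_fst.mul (h.contDiffAt.inv (by exact_mod_cast hz))

theorem rel_local (hε : 0 < ε) {p p' : ℂ × ℝ} (hp : p ∈ Om k ε) (hp' : p' ∈ Om k ε)
    (h : Rel k ε p p') : ∃ g : ℂ × ℝ → ℂ × ℝ, ContDiffAt ℝ ∞ g p' ∧ g p' = p ∧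
      ∀ᶠ w in 𝓝 p', g w ∈ Om k ε ∧ pr k ε (g w) = pr k ε w := by
  suffices H : ∃ g : ℂ × ℝ → ℂ × ℝ, ContDiffAt ℝ ∞ g p' ∧ g p' = p ∧
      ∀ᶠ w in 𝓝 p', Rel k ε (g w) w by
    obtain ⟨g, h1, h2, h3⟩ := H
    refine ⟨g, h1, h2, ?_⟩
    have h4 : ∀ᶠ w in 𝓝 p', g w ∈ Om k ε :=
      h1.continuousAt.eventually_mem (by rw [h2]; exact (isOpen_Om k ε).mem_nhds hp)
    filter_upwards [h3, h4, (isOpen_Om k ε).mem_nhds hp'] with w e1 e2 e3
    exact ⟨e2, (pr_eq_iff hε e2 e3).mpr e1⟩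
  rcases h with ⟨r, h⟩ | ⟨a, h⟩
  · obtain ⟨hr, h'⟩ := smul_symm hp'.1 h
    refine ⟨fun w => r⁻¹ • w, by fun_prop, h'.symm, Eventually.of_forall fun w => Or.inl ⟨r, ?_⟩⟩
    rw [smul_smul, mul_inv_cancel₀ hr, one_smul]
  · have hz := h.ne hε hp hp'
    have hz' := h.symm.ne hε hp' hp
    have e1 := (glue_iff hz hz').mp h
    have hne : p'.1 / p'.2 - cen (par2 a) ≠ 0 :=
      norm_pos_iff.mp (hε.trans ((mem_Om_iff hz').mp hp' _))
    have hc : ContDiffAt ℝ ∞ (fun w : ℂ × ℝ => w.1 / (w.2 : ℂ) - cen (par2 a)) p' :=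
      (contDiffAt_div hz').sub contDiffAt_const
    refine ⟨fun w => p.2 • ((cen a : ℂ) + ε * (w.1 / w.2 - cen (par2 a))⁻¹, (1 : ℝ)), ?_, ?_, ?_⟩
    · exact ((contDiffAt_const.add (contDiffAt_const.mul (hc.inv hne))).prodMk
        contDiffAt_const).const_smul _
    · conv_rhs => rw [eq_smul_one hz]
      simp only
      congr 2
      rw [← e1]; field_simp; ring
    · filter_upwards [hc.continuousAt.eventually_ne hne,
        continuous_snd.continuousAt.eventually_ne hz'] with w h1 h2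
      refine Or.inr ⟨a, Glue.smul_left ?_ _⟩
      rw [glue_iff (by simp) h2]
      simp only [Complex.ofReal_one, div_one, add_sub_cancel_left]
      rw [mul_assoc, inv_mul_cancel₀ h1, mul_one]

theorem isOpen_image_pr (hε : 0 < ε) {V : Set (ℂ × ℝ)} (hV : V ⊆ Om k ε) (ho : IsOpen V) :
    IsOpen (pr k ε '' V) := by
  rw [← (isQuotientMap_quot_mk (r := fun p p' : Om k ε => Rel k ε p p')).isOpen_preimage,
    isOpen_iff_mem_nhds]
  rintro p' ⟨p, hp, hpp⟩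
  rw [← pr_of_mem p'.2, pr_eq_iff hε (hV hp) p'.2] at hpp
  obtain ⟨g, h1, h2, h3⟩ := rel_local hε (hV hp) p'.2 hpp
  have h4 : ∀ᶠ w in 𝓝 (p' : ℂ × ℝ), g w ∈ V :=
    h1.continuousAt.eventually_mem (by rw [h2]; exact ho.mem_nhds hp)
  filter_upwards [continuous_subtype_val.continuousAt.eventually (h3.and h4)] with w hw
  exact ⟨g w, hw.2, by rw [hw.1.2, pr_of_mem w.2]⟩

theorem isOpenQuotientMap_mk (hε : 0 < ε) : IsOpenQuotientMap (Quot.mk _ : Om k ε → Surf k ε) := by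
  refine ⟨Quot.mk_surjective, continuous_mk, fun U hU => ?_⟩
  have h1 := isOpen_image_pr hε (Subtype.coe_image_subset _ U)
    ((isOpen_Om k ε).isOpenMap_subtype_val U hU)
  convert h1 using 1
  rw [image_image]
  exact image_congr fun p _ => (pr_of_mem p.2).symm

theorem exists_smul_iff {p p' : ℂ × ℝ} (hp : p ≠ 0) : (∃ r : ℝ, p' = r • p) ↔
    (p.1.re * p'.2 = p'.1.re * p.2 ∧ p.1.im * p'.2 = p'.1.im * p.2 ∧
      p.1.re * p'.1.im = p'.1.re * p.1.im) := by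
  constructor
  · rintro ⟨r, rfl⟩
    simp only [Prod.smul_fst, Prod.smul_snd, Complex.real_smul, smul_eq_mul, Complex.re_ofReal_mul,
      Complex.im_ofReal_mul]
    refine ⟨by ring, by ring, by ring⟩
  · rintro ⟨h1, h2, h3⟩
    have key : ∀ r : ℝ, p'.1.re = r * p.1.re → p'.1.im = r * p.1.im → p'.2 = r * p.2 →
        p' = r • p := by
      intro r e1 e2 e3
      ext
      · apply Complex.ext <;> simp [e1, e2]
      · simp [e3]
    by_cases a1 : p.1.re = 0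
    · by_cases a2 : p.1.im = 0
      · have a3 : p.2 ≠ 0 := fun a3 => hp (Prod.ext (Complex.ext a1 a2) a3)
        refine ⟨p'.2 / p.2, key _ ?_ ?_ ?_⟩ <;> field_simp <;> linarith
      · refine ⟨p'.1.im / p.1.im, key _ ?_ ?_ ?_⟩ <;> field_simp <;> linarith
    · refine ⟨p'.1.re / p.1.re, key _ ?_ ?_ ?_⟩ <;> field_simp <;> linarith

theorem t2Space_surf (hε : 0 < ε) : T2Space (Surf k ε) := by
  rw [t2Space_iff_of_isOpenQuotientMap (isOpenQuotientMap_mk hε)]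
  have : {q : Om k ε × Om k ε | (Quot.mk _ q.1 : Surf k ε) = Quot.mk _ q.2} =
      ({q : Om k ε × Om k ε | q.1.1.1.re * q.2.1.2 = q.2.1.1.re * q.1.1.2} ∩
        ({q | q.1.1.1.im * q.2.1.2 = q.2.1.1.im * q.1.1.2} ∩
          {q | q.1.1.1.re * q.2.1.1.im = q.2.1.1.re * q.1.1.1.im})) ∪
      ⋃ a : Fin k × Bool, {q | Glue ε a q.1.1 q.2.1} := by
    ext q
    rw [mem_ofPred_eq, mk_eq_iff hε, Rel, exists_smul_iff q.1.2.1]
    simp only [mem_ofPred_eq, mem_union, mem_inter_iff, mem_iUnion]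
  rw [this]
  refine IsClosed.union ((isClosed_eq (by fun_prop) (by fun_prop)).inter
    ((isClosed_eq (by fun_prop) (by fun_prop)).inter (isClosed_eq (by fun_prop) (by fun_prop))))
    (isClosed_iUnion_of_finite fun a => isClosed_eq (by fun_prop) (by fun_prop))

end Pool.Agent.Lib.MP_a9c398_gt
end
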